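import Pool.Agent.R109.GT.DD

/-! # Nodes of a generalized Takagi function: children, modulus of continuity, local formula -/

open MeasureTheory Set Filter Topology R109.GT

namespace TKL

variable (w : ℕ → ℤ → ℤ)

theorem slope_even (n : ℕ) (j : ℤ) : R109.GT.slope w (n + 1) (2 * j) = R109.GT.slope w n j + w n j := by
  have h1 : (2 * j) / 2 = j := by omega
  have h2 : (2 * j) % 2 = 0 := by omega
  rw [R109.GT.slope, h1, if_pos h2, mul_one]

theorem slope_odd (n : ℕ) (j : ℤ) : R109.GT.slope w (n + 1) (2 * j + 1) = R109.GT.slope w n j - w n j := by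
  have h1 : (2 * j + 1) / 2 = j := by omega
  have h2 : ¬ (2 * j + 1) % 2 = 0 := by omega
  rw [R109.GT.slope, h1, if_neg h2]; ring

theorem val_even (n : ℕ) (j : ℤ) : val w (n + 1) (2 * j) = 2 * val w n j := by
  have h1 : (2 * j) / 2 = j := by omega
  have h2 : (2 * j) % 2 = 0 := by omega
  rw [val, h1, if_pos h2, add_zero]

theorem val_odd (n : ℕ) (j : ℤ) :
    val w (n + 1) (2 * j + 1) = 2 * val w n j + R109.GT.slope w n j + w n j := by
  have h1 : (2 * j + 1) / 2 = j := by omega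
  have h2 : ¬ (2 * j + 1) % 2 = 0 := by omega
  rw [val, h1, if_neg h2]; ring

theorem val_next (n : ℕ) : ∀ j : ℤ, val w n (j + 1) = val w n j + R109.GT.slope w n j := by
  induction n with
  | zero => intro j; simp [val, R109.GT.slope]
  | succ n ih =>
    intro j
    rcases Int.even_or_odd' j with ⟨k, hk | hk⟩
    · rw [hk, val_odd, val_even, slope_even]; ring
    · rw [hk, val_odd, slope_odd]
      have : 2 * k + 1 + 1 = 2 * (k + 1) := by ring
      rw [this, val_even, ih]; ring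

/-- the local profile of the function on the node `(n,j)` -/
noncomputable def H (n : ℕ) (j : ℤ) (u : ℝ) : ℝ :=
  (val w n j : ℝ) + R109.GT.slope w n j * u + tak (fun m => w (n + m)) (j + u)

theorem phi_int (k : ℤ) : phi (k : ℝ) = 0 := by
  unfold phi; rw [round_intCast]; simp

theorem tak_int (w : ℕ → ℤ → ℤ) (k : ℤ) : tak w (k : ℝ) = 0 := by
  unfold tak
  have : ∀ n : ℕ, (w n ⌊(2:ℝ) ^ n * (k:ℝ)⌋ : ℝ) * phi ((2:ℝ) ^ n * (k:ℝ)) / 2 ^ n = 0 := by
    intro n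
    have h : (2:ℝ) ^ n * (k:ℝ) = ((2 ^ n * k : ℤ) : ℝ) := by push_cast; ring
    rw [h, phi_int]; simp
  simp [this]

theorem part2 (hw : Sgn w) (x : ℝ) : |part w 2 x| ≤ 1 / 2 := by
  unfold part
  rw [Finset.sum_range_succ, Finset.sum_range_one]
  have ha : ∀ n j, |(w n j : ℝ)| = 1 := by
    intro n j; rcases hw n j with h | h <;> simp [h]
  have h1 : |(w 0 ⌊(2:ℝ) ^ 0 * x⌋ : ℝ) * phi ((2:ℝ) ^ 0 * x) / 2 ^ 0| = phi x := by
    rw [abs_div, abs_mul, ha, one_mul, pow_zero, one_mul, abs_of_nonneg (phi_nonneg _)]; simp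
  have h2 : |(w 1 ⌊(2:ℝ) ^ 1 * x⌋ : ℝ) * phi ((2:ℝ) ^ 1 * x) / 2 ^ 1| = phi (2 * x) / 2 := by
    rw [abs_div, abs_mul, ha, one_mul, pow_one, abs_of_nonneg (phi_nonneg _)]; simp
  have h3 : phi x + phi (2 * x) / 2 ≤ 1 / 2 := by
    by_cases h : ⌊2 * x⌋ % 2 = 0
    · have e := phi_even x h
      have h0 := floor_half x
      have h4 := phi_le_abs (2 * x) (⌊2 * x⌋ + 1)
      have h5 := Int.lt_floor_add_one (2 * x)
      push_cast at h4
      rw [abs_of_nonpos (by linarith)] at h4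
      have h6 : ⌊2 * x⌋ = 2 * ⌊x⌋ := by omega
      rw [h6] at h4
      push_cast at h4
      linarith
    · have e := phi_odd x h
      have h0 := floor_half x
      have h4 := phi_le_abs (2 * x) (⌊2 * x⌋)
      have h5 := Int.floor_le (2 * x)
      rw [abs_of_nonneg (by linarith)] at h4
      have h6 : ⌊2 * x⌋ = 2 * ⌊x⌋ + 1 := by omega
      rw [h6] at h4
      push_cast at h4
      linarith
  refine (abs_add_le _ _).trans ?_
  rw [h1, h2]; exact h3

theorem bound34 (hw : Sgn w) (x : ℝ) : |tak w x| ≤ 3 / 4 := by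
  rw [split w hw 2 x]
  refine (abs_add_le _ _).trans ?_
  have h1 := part2 w hw x
  have h2 := bound (fun m => w (2 + m)) (fun m k => hw (2 + m) k) ((2:ℝ) ^ 2 * x)
  rw [abs_div, abs_of_pos (by positivity : (0:ℝ) < 2 ^ 2)]
  have h3 : |tak (fun m => w (2 + m)) ((2:ℝ) ^ 2 * x)| / 2 ^ 2 ≤ 1 / 4 := by
    rw [div_le_iff₀ (by norm_num)]
    calc |tak (fun m => w (2 + m)) ((2:ℝ) ^ 2 * x)| ≤ 1 := h2
      _ = 1 / 4 * 2 ^ 2 := by norm_num
  linarith

theorem part_lip (hw : Sgn w) (q : ℕ) (x y : ℝ) (hxy : x ≤ y) :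
    |part w q x - part w q y| ≤ q * (y - x) := by
  unfold part
  rw [← Finset.sum_sub_distrib]
  refine (Finset.abs_sum_le_sum_abs _ _).trans ?_
  have : ∀ m ∈ Finset.range q, |(w m ⌊(2:ℝ) ^ m * x⌋ : ℝ) * phi ((2:ℝ) ^ m * x) / 2 ^ m -
      (w m ⌊(2:ℝ) ^ m * y⌋ : ℝ) * phi ((2:ℝ) ^ m * y) / 2 ^ m| ≤ y - x := by
    intro m _
    have hp : (0:ℝ) < 2 ^ m := by positivity
    have h := term_lip (w m) (hw m) ((2:ℝ) ^ m * x) ((2:ℝ) ^ m * y)
      (mul_le_mul_of_nonneg_left hxy hp.le)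
    rw [← sub_div, abs_div, abs_of_pos hp, div_le_iff₀ hp]
    linarith
  refine (Finset.sum_le_sum this).trans ?_
  rw [Finset.sum_const, Finset.card_range, nsmul_eq_mul]

theorem tak_mod (hw : Sgn w) (q : ℕ) (x y : ℝ) (hxy : x ≤ y) :
    |tak w x - tak w y| ≤ q * (y - x) + 2 / 2 ^ q := by
  rw [split w hw q x, split w hw q y]
  have h1 := part_lip w hw q x y hxy
  have hp : (0:ℝ) < 2 ^ q := by positivity
  have h2 := bound (fun m => w (q + m)) (fun m k => hw (q + m) k) ((2:ℝ) ^ q * x)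
  have h3 := bound (fun m => w (q + m)) (fun m k => hw (q + m) k) ((2:ℝ) ^ q * y)
  have h4 : |tak (fun m => w (q + m)) ((2:ℝ) ^ q * x) / 2 ^ q| ≤ 1 / 2 ^ q := by
    rw [abs_div, abs_of_pos hp]; exact div_le_div_of_nonneg_right h2 hp.le
  have h5 : |tak (fun m => w (q + m)) ((2:ℝ) ^ q * y) / 2 ^ q| ≤ 1 / 2 ^ q := by
    rw [abs_div, abs_of_pos hp]; exact div_le_div_of_nonneg_right h3 hp.le
  have h6 : (2:ℝ) / 2 ^ q = 1 / 2 ^ q + 1 / 2 ^ q := by ring
  rw [h6]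
  rw [abs_le] at *
  constructor <;> linarith [h1.1, h1.2, h4.1, h4.2, h5.1, h5.2]

theorem exists_mod (θ : ℝ) (hθ : 0 < θ) : ∃ S0 : ℕ, 1 ≤ S0 ∧ ∀ S : ℕ, S0 ≤ S → ∀ w : ℕ → ℤ → ℤ, Sgn w →
    ∀ x y : ℝ, |x - y| ≤ 2 / S → |tak w x - tak w y| ≤ θ := by
  obtain ⟨q, hq⟩ := exists_pow_lt_of_lt_one (show (0:ℝ) < θ / 4 by positivity)
    (by norm_num : (1/2:ℝ) < 1)
  obtain ⟨M, hM⟩ := exists_nat_gt ((q:ℝ) * 4 / θ)
  refine ⟨M + 1, by omega, fun S hS w hw x y hxy => ?_⟩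
  have hS0 : (0:ℝ) < S := by
    have : 0 < S := by omega
    exact_mod_cast this
  have hMS : (M:ℝ) ≤ S := by exact_mod_cast (by omega : M ≤ S)
  have h1 : (q:ℝ) * (2 / S) ≤ θ / 2 := by
    rw [div_lt_iff₀ hθ] at hM
    rw [mul_div_assoc', div_le_iff₀ hS0]
    nlinarith
  have h2 : (2:ℝ) / 2 ^ q ≤ θ / 2 := by
    have : (1/2:ℝ)^q = 1 / 2 ^ q := by rw [one_div_pow]
    rw [this] at hq
    have e : (2:ℝ) / 2 ^ q = 2 * (1 / 2 ^ q) := by ring
    rw [e]; linarith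
  rcases le_total x y with h | h
  · have h3 := tak_mod w hw q x y h
    have h4 : y - x ≤ 2 / S := by
      rw [abs_le] at hxy; linarith [hxy.1]
    have h5 : (q:ℝ) * (y - x) ≤ q * (2 / S) := mul_le_mul_of_nonneg_left h4 (by positivity)
    linarith
  · have h3 := tak_mod w hw q y x h
    rw [abs_sub_comm]
    have h4 : x - y ≤ 2 / S := by
      rw [abs_le] at hxy; linarith [hxy.2]
    have h5 : (q:ℝ) * (x - y) ≤ q * (2 / S) := mul_le_mul_of_nonneg_left h4 (by positivity)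
    linarith

/-- local formula on the closed node interval -/
theorem local_eq (hw : Sgn w) (n : ℕ) (j : ℤ) (u : ℝ) (h0 : 0 ≤ u) (h1 : u ≤ 1) :
    (2:ℝ) ^ n * tak w ((j + u) / 2 ^ n) = H w n j u := by
  have hp : (0:ℝ) < 2 ^ n := by positivity
  have e1 : (2:ℝ) ^ n * ((j + u) / 2 ^ n) = j + u := by field_simp
  rw [tak_eq w hw n, mul_div_cancel₀ _ hp.ne']
  unfold H S
  rw [e1]
  rcases h1.lt_or_eq with h | h
  · have hf : ⌊(j:ℝ) + u⌋ = j := by
      rw [Int.floor_eq_iff]; constructor <;> linarith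
    rw [hf]; ring
  · have hf : ⌊(j:ℝ) + u⌋ = j + 1 := by
      rw [h]
      have : ((j:ℝ) + 1) = ((j + 1 : ℤ) : ℝ) := by push_cast; ring
      rw [this, Int.floor_intCast]
    rw [hf, val_next, h]; push_cast; ring

end TKL
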