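import Mathlib

/-! # Occupation estimates for a single node with non-zero slope (real variable lemma) -/

open MeasureTheory Set Filter Topology

namespace TKL

/-- a perturbation `g` of the linear function of slope `S` on `[0,1]` -/
structure Prof (S θ : ℝ) (g : ℝ → ℝ) : Prop where
  hS : 1 ≤ S
  hθ : 0 ≤ θ
  hθ4 : θ ≤ 1 / 4
  bd : ∀ u ∈ Icc (0:ℝ) 1, |g u| ≤ 3 / 4
  g0 : g 0 = 0
  g1 : g 1 = 0
  md : ∀ u ∈ Icc (0:ℝ) 1, ∀ v ∈ Icc (0:ℝ) 1, |u - v| ≤ 2 / S → |g u - g v| ≤ θ

/-- time spent in `(a,b]` -/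
noncomputable def occ (h : ℝ → ℝ) (a b : ℝ) : ℝ :=
  volume.real {u : ℝ | u ∈ Icc (0:ℝ) 1 ∧ h u ∈ Ioc a b}

theorem fin_occ (h : ℝ → ℝ) (a b : ℝ) : volume {u : ℝ | u ∈ Icc (0:ℝ) 1 ∧ h u ∈ Ioc a b} ≠ ⊤ := by
  refine ne_top_of_le_ne_top ?_ (measure_mono (fun u hu => hu.1 : _ ⊆ Icc (0:ℝ) 1))
  simp

theorem occ_nonneg (h : ℝ → ℝ) (a b : ℝ) : 0 ≤ occ h a b := measureReal_nonneg

theorem occ_le {h : ℝ → ℝ} {a b x y : ℝ} (hxy : x ≤ y)
    (hs : ∀ u ∈ Icc (0:ℝ) 1, h u ∈ Ioc a b → u ∈ Icc x y) : occ h a b ≤ y - x := by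
  have h1 : occ h a b ≤ volume.real (Icc x y) :=
    measureReal_mono (fun u hu => hs u hu.1 hu.2) (by simp)
  rwa [Real.volume_real_Icc_of_le hxy] at h1

theorem le_occ {h : ℝ → ℝ} {a b x y : ℝ} (hxy : x ≤ y)
    (hs : ∀ u ∈ Ioc x y, u ∈ Icc (0:ℝ) 1 ∧ h u ∈ Ioc a b) : y - x ≤ occ h a b := by
  have h1 : volume.real (Ioc x y) ≤ occ h a b :=
    measureReal_mono (fun u hu => hs u hu) (fin_occ h a b)
  rwa [Real.volume_real_Ioc_of_le hxy] at h1

variable {S θ : ℝ} {g : ℝ → ℝ}

theorem cover_wide (hS1 : 1 ≤ S) (hbd : ∀ u ∈ Icc (0:ℝ) 1, |g u| ≤ 3 / 4)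
    (lo c : ℝ) (h1 : lo ≤ c) (h2 : c + 1 ≤ lo + S) :
    1 / S ≤ occ (fun u => lo + S * u + g u) (c - 1) (c + 2) := by
  have hS : 0 < S := lt_of_lt_of_le one_pos hS1
  have e : 1 / S = (c + 1 - lo) / S - (c - lo) / S := by ring
  rw [e]
  apply le_occ
  · apply div_le_div_of_nonneg_right _ hS.le; linarith
  · intro u hu
    have a1 : c - lo < S * u := by
      have := (div_lt_iff₀ hS).1 hu.1; linarith
    have a2 : S * u ≤ c + 1 - lo := by
      have := (le_div_iff₀ hS).1 hu.2; linarith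
    have u0 : 0 ≤ u := by
      by_contra hc; push Not at hc; nlinarith
    have u1 : u ≤ 1 := by
      by_contra hc; push Not at hc; nlinarith
    have hb := abs_le.1 (hbd u ⟨u0, u1⟩)
    refine ⟨⟨u0, u1⟩, ?_, ?_⟩
    · show c - 1 < lo + S * u + g u
      linarith [hb.1]
    · show lo + S * u + g u ≤ c + 2
      linarith [hb.2]

theorem cover_upper (P : Prof S θ g) (lo c : ℝ) (h1 : lo ≤ c) (h2 : c + 1 ≤ lo + S) :
    occ (fun u => lo + S * u + g u) c (c + 1) ≤ (1 + 2 * θ) / S := by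
  have hS : 0 < S := lt_of_lt_of_le one_pos P.hS
  set a := (c - lo) / S with ha
  have hSa : S * a = c - lo := by rw [ha]; field_simp
  have a0 : 0 ≤ a := by rw [ha]; exact div_nonneg (by linarith) hS.le
  have a1 : a ≤ 1 := by rw [ha, div_le_one hS]; linarith
  have e : (1 + 2 * θ) / S = (a + (1 - g a + θ) / S) - (a + (- g a - θ) / S) := by field_simp; ring
  rw [e]
  apply occ_le
  · have : (- g a - θ) / S ≤ (1 - g a + θ) / S :=
      div_le_div_of_nonneg_right (by linarith [P.hθ]) hS.le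
    linarith
  · intro u hu hh
    have hb := abs_le.1 (P.bd u hu)
    have x1 : c < lo + S * u + g u := hh.1
    have x2 : lo + S * u + g u ≤ c + 1 := hh.2
    have y1 : S * (u - a) ≤ 2 := by rw [mul_sub, hSa]; linarith [hb.1]
    have y2 : -2 ≤ S * (u - a) := by rw [mul_sub, hSa]; linarith [hb.2]
    have hd : |u - a| ≤ 2 / S := by
      rw [abs_le, neg_le, le_div_iff₀ hS, le_div_iff₀ hS]
      constructor <;> linarith
    have hm := abs_le.1 (P.md u hu a ⟨a0, a1⟩ hd)
    have z1 : S * (u - a) ≤ 1 - g a + θ := by rw [mul_sub, hSa]; linarith [hm.1]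
    have z2 : - g a - θ ≤ S * (u - a) := by rw [mul_sub, hSa]; linarith [hm.2]
    constructor
    · have : (- g a - θ) / S ≤ u - a := by rw [div_le_iff₀ hS]; linarith
      linarith
    · have : u - a ≤ (1 - g a + θ) / S := by rw [le_div_iff₀ hS]; linarith
      linarith

theorem cover_lower (P : Prof S θ g) (lo c : ℝ) (h1 : lo ≤ c) (h2 : c + 1 ≤ lo + S) :
    (1 - 2 * θ) / S ≤ occ (fun u => lo + S * u + g u) c (c + 1) := by
  have hS : 0 < S := lt_of_lt_of_le one_pos P.hS
  set a := (c - lo) / S with ha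
  have hSa : S * a = c - lo := by rw [ha]; field_simp
  have a0 : 0 ≤ a := by rw [ha]; exact div_nonneg (by linarith) hS.le
  have a1 : a ≤ 1 := by rw [ha, div_le_one hS]; linarith
  have e : (1 - 2 * θ) / S = (a + (1 - g a - θ) / S) - (a + (- g a + θ) / S) := by field_simp; ring
  rw [e]
  have hba := abs_le.1 (P.bd a ⟨a0, a1⟩)
  apply le_occ
  · have : (- g a + θ) / S ≤ (1 - g a - θ) / S :=
      div_le_div_of_nonneg_right (by linarith [P.hθ4]) hS.le
    linarith
  · intro u hu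
    have x1 : - g a + θ < S * (u - a) := by
      have : (- g a + θ) / S < u - a := by linarith [hu.1]
      rw [div_lt_iff₀ hS] at this; linarith
    have x2 : S * (u - a) ≤ 1 - g a - θ := by
      have : u - a ≤ (1 - g a - θ) / S := by linarith [hu.2]
      rw [le_div_iff₀ hS] at this; linarith
    have hd : |u - a| ≤ 2 / S := by
      rw [abs_le, neg_le, le_div_iff₀ hS, le_div_iff₀ hS]
      constructor <;> linarith [hba.1, hba.2, P.hθ]
    have u0 : 0 ≤ u := by
      rcases le_or_gt (g a) θ with hg | hg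
      · by_contra hc; push Not at hc
        have : S * (u - a) < 0 := by nlinarith
        linarith
      · have h3 : 2 / S < a := by
          by_contra hc; push Not at hc
          have := P.md a ⟨a0, a1⟩ 0 ⟨le_rfl, zero_le_one⟩ (by rw [sub_zero, abs_of_nonneg a0]; exact hc)
          rw [P.g0, sub_zero, abs_le] at this
          linarith [this.2]
        rw [div_lt_iff₀ hS] at h3
        by_contra hc; push Not at hc
        nlinarith [hba.2, P.hθ]
    have u1 : u ≤ 1 := by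
      have hS1 : 1 ≤ S * (1 - a) := by rw [mul_sub, hSa]; linarith
      rcases le_or_gt (- g a) θ with hg | hg
      · by_contra hc; push Not at hc
        nlinarith
      · have h3 : 2 / S < 1 - a := by
          by_contra hc; push Not at hc
          have := P.md a ⟨a0, a1⟩ 1 ⟨zero_le_one, le_rfl⟩ (by
            rw [abs_sub_comm, abs_of_nonneg (by linarith)]; exact hc)
          rw [P.g1, sub_zero, abs_le] at this
          linarith [this.1]
        rw [div_lt_iff₀ hS] at h3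
        by_contra hc; push Not at hc
        nlinarith [hba.1, P.hθ]
    have hm := abs_le.1 (P.md u ⟨u0, u1⟩ a ⟨a0, a1⟩ hd)
    rw [mul_sub, hSa] at x1 x2
    refine ⟨⟨u0, u1⟩, ?_, ?_⟩
    · show c < lo + S * u + g u
      linarith [hm.1]
    · show lo + S * u + g u ≤ c + 1
      linarith [hm.2]

theorem above_upper (P : Prof S θ g) (lo : ℝ) :
    occ (fun u => lo + S * u + g u) (lo + S) (lo + S + 1) ≤ θ / S := by
  have hS : 0 < S := lt_of_lt_of_le one_pos P.hS
  have e : θ / S = 1 - (1 - θ / S) := by ring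
  rw [e]
  apply occ_le
  · have : 0 ≤ θ / S := div_nonneg P.hθ hS.le
    linarith
  · intro u hu hh
    have hb := abs_le.1 (P.bd u hu)
    have x1 : lo + S < lo + S * u + g u := hh.1
    have hd : |u - 1| ≤ 2 / S := by
      rw [abs_sub_comm, abs_of_nonneg (by linarith [hu.2]), le_div_iff₀ hS]
      nlinarith [hb.2]
    have hm := abs_le.1 (P.md u hu 1 ⟨zero_le_one, le_rfl⟩ hd)
    rw [P.g1, sub_zero] at hm
    refine ⟨?_, hu.2⟩
    have : 1 - u ≤ θ / S := by rw [le_div_iff₀ hS]; nlinarith [hm.2]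
    linarith

theorem below_upper (P : Prof S θ g) (lo : ℝ) :
    occ (fun u => lo + S * u + g u) (lo - 1) lo ≤ θ / S := by
  have hS : 0 < S := lt_of_lt_of_le one_pos P.hS
  have e : θ / S = θ / S - 0 := by ring
  rw [e]
  apply occ_le
  · exact div_nonneg P.hθ hS.le
  · intro u hu hh
    have hb := abs_le.1 (P.bd u hu)
    have x1 : lo + S * u + g u ≤ lo := hh.2
    have hd : |u - 0| ≤ 2 / S := by
      rw [sub_zero, abs_of_nonneg hu.1, le_div_iff₀ hS]
      nlinarith [hb.1]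
    have hm := abs_le.1 (P.md u hu 0 ⟨le_rfl, zero_le_one⟩ hd)
    rw [P.g0, sub_zero] at hm
    refine ⟨hu.1, ?_⟩
    rw [le_div_iff₀ hS]; nlinarith [hm.1]

/-- reversing time does not change occupation times -/
theorem occ_rev (h : ℝ → ℝ) (a b : ℝ) : occ (fun u => h (1 - u)) a b = occ h a b := by
  unfold occ
  have hmp := (Measure.measurePreserving_sub_left (volume : Measure ℝ) 1)
  have hme : MeasurableEmbedding (fun u : ℝ => 1 - u) :=
    (MeasurableEquiv.subLeft (1:ℝ)).measurableEmbedding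
  have := hmp.measure_preimage_emb hme {u : ℝ | u ∈ Icc (0:ℝ) 1 ∧ h u ∈ Ioc a b}
  unfold Measure.real
  rw [← this]
  congr 2
  ext u
  simp only [mem_ofPred_eq, mem_preimage, mem_Icc]
  constructor
  · rintro ⟨⟨h1, h2⟩, h3⟩; exact ⟨⟨by linarith, by linarith⟩, h3⟩
  · rintro ⟨⟨h1, h2⟩, h3⟩; exact ⟨⟨by linarith, by linarith⟩, h3⟩

end TKL
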