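import Pool.Agent.TKL.A
import Pool.Agent.TKL.B

/-! # Combinatorics of nodes -/

open MeasureTheory Set Filter Topology R109.GT

namespace TKL

variable (w : ℕ → ℤ → ℤ)

/-- lower end of the range of a node -/
def lo (n : ℕ) (j : ℤ) : ℤ := min (val w n j) (val w n j + R109.GT.slope w n j)

/-- absolute slope of a node -/
def A (n : ℕ) (j : ℤ) : ℕ := (R109.GT.slope w n j).natAbs

/-- the node `(n,j)` crosses the cell `[c,c+1]` of level `n` -/
def Cov (n : ℕ) (j c : ℤ) : Prop := lo w n j ≤ c ∧ c + 1 ≤ lo w n j + A w n j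

theorem child_data (hw : Sgn w) (n : ℕ) (j : ℤ) :
    (R109.GT.slope w (n+1) j = R109.GT.slope w n (j/2) + 1 ∨ R109.GT.slope w (n+1) j = R109.GT.slope w n (j/2) - 1) := by
  rw [R109.GT.slope]
  rcases hw n (j/2) with h | h <;> rw [h] <;> split_ifs <;> simp <;> omega

theorem A_child (hw : Sgn w) (n : ℕ) (j : ℤ) :
    A w (n+1) j ≤ A w n (j/2) + 1 ∧ A w n (j/2) ≤ A w (n+1) j + 1 := by
  unfold A
  rcases child_data w hw n j with h | h <;> rw [h] <;> omega

theorem A_desc (hw : Sgn w) (n k : ℕ) : ∀ j : ℤ,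
    A w (n+k) j ≤ A w n (j/2^k) + k ∧ A w n (j/2^k) ≤ A w (n+k) j + k := by
  induction k with
  | zero => intro j; simp
  | succ k ih =>
    intro j
    have h1 := A_child w hw (n+k) j
    have h2 := ih (j/2)
    have e : j / 2 / 2 ^ k = j / 2 ^ (k+1) := by
      rw [Int.ediv_ediv_of_nonneg (by norm_num), pow_succ']
    rw [e] at h2
    rw [← add_assoc]
    omega

theorem loc_child (hw : Sgn w) (n : ℕ) (j : ℤ) :
    2 * lo w n (j/2) - 1 ≤ lo w (n+1) j ∧
      lo w (n+1) j + A w (n+1) j ≤ 2 * (lo w n (j/2) + A w n (j/2)) + 1 := by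
  unfold lo A
  rw [R109.GT.slope, R109.GT.val]
  rcases hw n (j/2) with h | h <;> rw [h] <;> split_ifs <;> omega

theorem loc_desc (hw : Sgn w) (n k : ℕ) : ∀ j : ℤ,
    2 ^ k * (lo w n (j/2^k) - 1) + 1 ≤ lo w (n+k) j ∧
      lo w (n+k) j + A w (n+k) j ≤ 2 ^ k * (lo w n (j/2^k) + A w n (j/2^k) + 1) - 1 := by
  induction k with
  | zero => intro j; simp
  | succ k ih =>
    intro j
    have h1 := loc_child w hw (n+k) j
    have h2 := ih (j/2)
    have e : j / 2 / 2 ^ k = j / 2 ^ (k+1) := by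
      rw [Int.ediv_ediv_of_nonneg (by norm_num), pow_succ']
    rw [e] at h2
    rw [← add_assoc]
    generalize j / 2 ^ (k+1) = y at h2 ⊢
    rw [pow_succ]
    constructor
    · linarith [h1.1, h2.1]
    · linarith [h1.2, h2.2]

theorem cov_child (hw : Sgn w) (n : ℕ) (j c : ℤ) (h : Cov w n j (c/2)) :
    ∃ j', j' / 2 = j ∧ Cov w (n+1) j' c := by
  unfold Cov lo A at *
  rcases le_or_gt 0 (R109.GT.slope w n j) with hs | hs
  · by_cases hc : c + 1 ≤ 2 * val w n j + R109.GT.slope w n j + w n j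
    · refine ⟨2 * j, by omega, ?_⟩
      rw [slope_even, val_even]
      rcases hw n j with hh | hh <;> rw [hh] at hc ⊢ <;> omega
    · refine ⟨2 * j + 1, by omega, ?_⟩
      rw [slope_odd, val_odd]
      rcases hw n j with hh | hh <;> rw [hh] at hc ⊢ <;> omega
  · by_cases hc : 2 * val w n j + R109.GT.slope w n j + w n j ≤ c
    · refine ⟨2 * j, by omega, ?_⟩
      rw [slope_even, val_even]
      rcases hw n j with hh | hh <;> rw [hh] at hc ⊢ <;> omega
    · refine ⟨2 * j + 1, by omega, ?_⟩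
      rw [slope_odd, val_odd]
      rcases hw n j with hh | hh <;> rw [hh] at hc ⊢ <;> omega

theorem cov_desc (hw : Sgn w) (n k : ℕ) : ∀ (j c : ℤ), Cov w n j (c/2^k) →
    ∃ j', j' / 2 ^ k = j ∧ Cov w (n+k) j' c := by
  induction k with
  | zero => intro j c h; exact ⟨j, by simp, by simpa using h⟩
  | succ k ih =>
    intro j c h
    have e : c / 2 ^ (k+1) = c / 2 / 2 ^ k := by
      rw [Int.ediv_ediv_of_nonneg (by norm_num), pow_succ']
    rw [e] at h
    obtain ⟨j1, h1, h2⟩ := ih j (c/2) h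
    obtain ⟨j2, h3, h4⟩ := cov_child w hw (n+k) j1 c h2
    refine ⟨j2, ?_, h4⟩
    rw [← h1, ← h3, Int.ediv_ediv_of_nonneg (by norm_num), pow_succ']

theorem down_child (hw : Sgn w) (n : ℕ) (j : ℤ) (k : ℕ) (h : A w n j = k + 1) :
    ∃ j', j' / 2 = j ∧ A w (n+1) j' = k := by
  unfold A at *
  rcases hw n j with hh | hh
  · rcases le_or_gt 0 (R109.GT.slope w n j) with hs | hs
    · refine ⟨2 * j + 1, by omega, ?_⟩
      rw [slope_odd, hh]; omega
    · refine ⟨2 * j, by omega, ?_⟩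
      rw [slope_even, hh]; omega
  · rcases le_or_gt 0 (R109.GT.slope w n j) with hs | hs
    · refine ⟨2 * j, by omega, ?_⟩
      rw [slope_even, hh]; omega
    · refine ⟨2 * j + 1, by omega, ?_⟩
      rw [slope_odd, hh]; omega

theorem down_desc (hw : Sgn w) : ∀ (k n : ℕ) (j : ℤ), A w n j = k →
    ∃ j', j' / 2 ^ k = j ∧ R109.GT.slope w (n+k) j' = 0 := by
  intro k
  induction k with
  | zero =>
    intro n j h
    refine ⟨j, by simp, ?_⟩
    unfold A at h
    simpa using h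
  | succ k ih =>
    intro n j h
    obtain ⟨j1, h1, h2⟩ := down_child w hw n j k h
    obtain ⟨j2, h3, h4⟩ := ih (n+1) j1 h2
    refine ⟨j2, ?_, ?_⟩
    · rw [← h1, ← h3, Int.ediv_ediv_of_nonneg (by positivity), pow_succ]
    · rw [show n + (k+1) = n + 1 + k by ring]; exact h4

/-- the nodes of level `n` inside `[0,1)` -/
noncomputable def Nd (n : ℕ) : Finset ℤ := Finset.Ico 0 (2 ^ n)

theorem mem_Nd {n : ℕ} {j : ℤ} : j ∈ Nd n ↔ 0 ≤ j ∧ j < 2 ^ n := by
  unfold Nd; rw [Finset.mem_Ico]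

theorem div_mem_Nd {n k : ℕ} {j : ℤ} : j ∈ Nd (n+k) ↔ j / 2 ^ k ∈ Nd n := by
  rw [mem_Nd, mem_Nd]
  have hp : (0:ℤ) < 2 ^ k := by positivity
  constructor
  · rintro ⟨h1, h2⟩
    refine ⟨Int.ediv_nonneg h1 hp.le, ?_⟩
    rw [Int.ediv_lt_iff_lt_mul hp, ← pow_add]; exact h2
  · rintro ⟨h1, h2⟩
    rw [Int.ediv_lt_iff_lt_mul hp, ← pow_add] at h2
    refine ⟨?_, h2⟩
    by_contra hc; push Not at hc
    have := Int.ediv_neg_of_neg_of_pos hc hp
    omega

end TKL
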