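import Pool.Agent.TKL.C

/-! # Occupation masses of nodes -/

open MeasureTheory Set Filter Topology R109.GT

namespace TKL

variable (w : ℕ → ℤ → ℤ)

theorem sgn_shift {w : ℕ → ℤ → ℤ} (hw : Sgn w) (n : ℕ) : Sgn (fun m => w (n + m)) :=
  fun m k => hw (n + m) k

theorem node_form (hw : Sgn w) (n : ℕ) (j : ℤ) :
    ∃ g : ℝ → ℝ, (∀ u ∈ Icc (0:ℝ) 1, |g u| ≤ 3 / 4) ∧ g 0 = 0 ∧ g 1 = 0 ∧
      (∀ δ θ : ℝ, (∀ w' : ℕ → ℤ → ℤ, Sgn w' → ∀ x y : ℝ, |x - y| ≤ δ → |tak w' x - tak w' y| ≤ θ) →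
        ∀ u v : ℝ, |u - v| ≤ δ → |g u - g v| ≤ θ) ∧
      ∀ a b : ℝ, occ (H w n j) a b = occ (fun u => (lo w n j : ℝ) + (A w n j : ℝ) * u + g u) a b := by
  have hsh := sgn_shift hw n
  rcases le_or_gt 0 (R109.GT.slope w n j) with hs | hs
  · refine ⟨fun u => tak (fun m => w (n + m)) (j + u), fun u _ => bound34 _ hsh _, ?_, ?_, ?_, ?_⟩
    · show tak (fun m => w (n + m)) (j + 0) = 0
      rw [add_zero]; exact tak_int _ j
    · show tak (fun m => w (n + m)) (j + 1) = 0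
      have := tak_int (fun m => w (n + m)) (j + 1)
      push_cast at this; exact this
    · intro δ θ h u v huv
      exact h _ hsh _ _ (by rw [add_sub_add_left_eq_sub]; exact huv)
    · intro a b
      have e1 : (lo w n j : ℝ) = val w n j := by
        have : lo w n j = val w n j := by unfold lo; omega
        rw [this]
      have e2 : (A w n j : ℝ) = R109.GT.slope w n j := by
        have : (A w n j : ℤ) = R109.GT.slope w n j := by unfold A; omega
        rw [← this]; simp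
      rw [e1, e2]; rfl
  · refine ⟨fun u => tak (fun m => w (n + m)) (j + (1 - u)), fun u _ => bound34 _ hsh _, ?_, ?_, ?_, ?_⟩
    · show tak (fun m => w (n + m)) (j + (1 - 0)) = 0
      have := tak_int (fun m => w (n + m)) (j + 1)
      push_cast at this; rw [sub_zero]; exact this
    · show tak (fun m => w (n + m)) (j + (1 - 1)) = 0
      rw [sub_self, add_zero]; exact tak_int _ j
    · intro δ θ h u v huv
      refine h _ hsh _ _ ?_
      have : (j:ℝ) + (1 - u) - (j + (1 - v)) = v - u := by ring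
      rw [this, abs_sub_comm]; exact huv
    · intro a b
      have e1 : (lo w n j : ℝ) = val w n j + R109.GT.slope w n j := by
        have : lo w n j = val w n j + R109.GT.slope w n j := by unfold lo; omega
        rw [this]; push_cast; ring
      have e2 : (A w n j : ℝ) = - R109.GT.slope w n j := by
        have : (A w n j : ℤ) = - R109.GT.slope w n j := by unfold A; omega
        have h3 : (A w n j : ℝ) = ((A w n j : ℤ) : ℝ) := by simp
        rw [h3, this]; push_cast; ring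
      rw [← occ_rev]
      congr 1
      funext u
      unfold H
      rw [e1, e2]; ring

theorem H_bounds (hw : Sgn w) (n : ℕ) (j : ℤ) (u : ℝ) (hu : u ∈ Icc (0:ℝ) 1) :
    (lo w n j : ℝ) - 3 / 4 ≤ H w n j u ∧ H w n j u ≤ lo w n j + A w n j + 3 / 4 := by
  have hb := abs_le.1 (bound34 _ (sgn_shift hw n) (j + u))
  unfold H
  rcases le_or_gt 0 (R109.GT.slope w n j) with hs | hs
  · have e1 : lo w n j = val w n j := by unfold lo; omega
    have e2 : (A w n j : ℝ) = R109.GT.slope w n j := by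
      have : (A w n j : ℤ) = R109.GT.slope w n j := by unfold A; omega
      rw [← this]; simp
    rw [e1, e2]
    have hs' : (0:ℝ) ≤ R109.GT.slope w n j := by exact_mod_cast hs
    constructor
    · nlinarith [hb.1, mul_nonneg hs' hu.1]
    · nlinarith [hb.2, mul_le_mul_of_nonneg_left hu.2 hs']
  · have e1 : lo w n j = val w n j + R109.GT.slope w n j := by unfold lo; omega
    have e2 : (A w n j : ℝ) = - R109.GT.slope w n j := by
      have : (A w n j : ℤ) = - R109.GT.slope w n j := by unfold A; omega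
      have h3 : (A w n j : ℝ) = ((A w n j : ℤ) : ℝ) := by simp
      rw [h3, this]; push_cast; ring
    rw [e1, e2]; push_cast
    have hs' : (R109.GT.slope w n j : ℝ) ≤ 0 := by exact_mod_cast hs.le
    constructor
    · nlinarith [hb.1, mul_le_mul_of_nonpos_left hu.2 hs']
    · nlinarith [hb.2, mul_nonneg (neg_nonneg.2 hs') hu.1]

/-- masses vanish away from the range of the node -/
theorem mass_far (hw : Sgn w) (n : ℕ) (j c : ℤ) (h : ¬ (lo w n j ≤ c + 1 ∧ c ≤ lo w n j + A w n j)) :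
    occ (H w n j) c (c + 1) = 0 := by
  unfold occ
  have : {u : ℝ | u ∈ Icc (0:ℝ) 1 ∧ H w n j u ∈ Ioc (c:ℝ) (c + 1)} = ∅ := by
    rw [Set.eq_empty_iff_forall_notMem]
    rintro u ⟨hu, h1, h2⟩
    have hb := H_bounds w hw n j u hu
    apply h
    constructor
    · have : (lo w n j : ℝ) - 3 / 4 ≤ c + 1 := hb.1.trans h2
      have h3 : (lo w n j : ℝ) < (c + 2 : ℤ) := by push_cast; linarith
      have h4 : lo w n j < c + 2 := by exact_mod_cast h3
      omega
    · have : (c:ℝ) < lo w n j + A w n j + 3 / 4 := lt_of_lt_of_le h1 hb.2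
      have h3 : (c:ℝ) < ((lo w n j + A w n j + 1 : ℤ) : ℝ) := by push_cast; linarith
      have h4 : c < lo w n j + A w n j + 1 := by exact_mod_cast h3
      omega
  rw [this]; simp

theorem cov_pos {n : ℕ} {j c : ℤ} (h : Cov w n j c) : 1 ≤ A w n j := by
  unfold Cov at h; omega

theorem mass_wide (hw : Sgn w) (n : ℕ) (j c : ℤ) (h : Cov w n j c) :
    1 / (A w n j : ℝ) ≤ occ (H w n j) (c - 1) (c + 2) := by
  obtain ⟨g, hb, -, -, -, he⟩ := node_form w hw n j
  rw [he]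
  have h1 : (lo w n j : ℝ) ≤ c := by exact_mod_cast h.1
  have h2 : (c : ℝ) + 1 ≤ lo w n j + A w n j := by exact_mod_cast h.2
  exact cover_wide (by exact_mod_cast cov_pos w h) hb _ _ h1 h2

/-- the threshold property -/
def Thr (θ : ℝ) (S0 : ℕ) : Prop := 0 ≤ θ ∧ θ ≤ 1 / 4 ∧ 1 ≤ S0 ∧
  ∀ S : ℕ, S0 ≤ S → ∀ w : ℕ → ℤ → ℤ, Sgn w → ∀ x y : ℝ, |x - y| ≤ 2 / S → |tak w x - tak w y| ≤ θ

theorem node_prof (hw : Sgn w) {θ : ℝ} {S0 : ℕ} (hT : Thr θ S0) (n : ℕ) (j : ℤ)
    (hA : S0 ≤ A w n j) : ∃ g : ℝ → ℝ, Prof (A w n j) θ g ∧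
      ∀ a b : ℝ, occ (H w n j) a b = occ (fun u => (lo w n j : ℝ) + (A w n j : ℝ) * u + g u) a b := by
  obtain ⟨g, hb, h0, h1, hm, he⟩ := node_form w hw n j
  refine ⟨g, ⟨?_, hT.1, hT.2.1, hb, h0, h1, ?_⟩, he⟩
  · have : 1 ≤ A w n j := hT.2.2.1.trans hA
    exact_mod_cast this
  · intro u _ v _ huv
    exact hm _ _ (fun w' hw' x y hxy => hT.2.2.2 _ hA w' hw' x y hxy) u v huv

theorem mass_cov_le (hw : Sgn w) {θ : ℝ} {S0 : ℕ} (hT : Thr θ S0) (n : ℕ) (j c : ℤ)
    (hA : S0 ≤ A w n j) (h : Cov w n j c) :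
    occ (H w n j) c (c + 1) ≤ (1 + 2 * θ) / A w n j := by
  obtain ⟨g, P, he⟩ := node_prof w hw hT n j hA
  rw [he]
  exact cover_upper P _ _ (by exact_mod_cast h.1) (by exact_mod_cast h.2)

theorem mass_cov_ge (hw : Sgn w) {θ : ℝ} {S0 : ℕ} (hT : Thr θ S0) (n : ℕ) (j c : ℤ)
    (hA : S0 ≤ A w n j) (h : Cov w n j c) :
    (1 - 2 * θ) / A w n j ≤ occ (H w n j) c (c + 1) := by
  obtain ⟨g, P, he⟩ := node_prof w hw hT n j hA
  rw [he]
  exact cover_lower P _ _ (by exact_mod_cast h.1) (by exact_mod_cast h.2)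

theorem mass_above (hw : Sgn w) {θ : ℝ} {S0 : ℕ} (hT : Thr θ S0) (n : ℕ) (j c : ℤ)
    (hA : S0 ≤ A w n j) (h : c = lo w n j + A w n j) :
    occ (H w n j) c (c + 1) ≤ θ / A w n j := by
  obtain ⟨g, P, he⟩ := node_prof w hw hT n j hA
  rw [he, h]; push_cast
  exact above_upper P _

theorem mass_below (hw : Sgn w) {θ : ℝ} {S0 : ℕ} (hT : Thr θ S0) (n : ℕ) (j c : ℤ)
    (hA : S0 ≤ A w n j) (h : c + 1 = lo w n j) :
    occ (H w n j) c (c + 1) ≤ θ / A w n j := by
  obtain ⟨g, P, he⟩ := node_prof w hw hT n j hA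
  have e : c = lo w n j - 1 := by omega
  rw [he, e]; push_cast
  have := below_upper P (lo w n j)
  rw [sub_add_cancel]; exact this

theorem mass_zero (hw : Sgn w) (n : ℕ) (j : ℤ) (h : R109.GT.slope w n j = 0) :
    occ (H w n j) ((val w n j : ℝ) - 1) ((val w n j : ℝ) + 1) = 1 := by
  unfold occ
  have : {u : ℝ | u ∈ Icc (0:ℝ) 1 ∧ H w n j u ∈ Ioc ((val w n j : ℝ) - 1) ((val w n j : ℝ) + 1)} =
      Icc (0:ℝ) 1 := by
    ext u
    constructor
    · rintro ⟨hu, -⟩; exact hu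
    · intro hu
      refine ⟨hu, ?_⟩
      have hb := abs_le.1 (bound34 _ (sgn_shift hw n) (j + u))
      unfold H
      rw [h]; push_cast
      constructor <;> linarith [hb.1, hb.2]
  rw [this]; simp

theorem H_cont (hw : Sgn w) (n : ℕ) (j : ℤ) : Continuous (H w n j) := by
  unfold H
  have h1 := cont _ (sgn_shift hw n)
  have h2 : Continuous (fun u : ℝ => tak (fun m => w (n + m)) ((j:ℝ) + u)) :=
    h1.comp (continuous_const.add continuous_id)
  fun_prop

theorem occ_split (hw : Sgn w) (n : ℕ) (j : ℤ) (a b c : ℝ) (h1 : a ≤ b) (h2 : b ≤ c) :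
    occ (H w n j) a c = occ (H w n j) a b + occ (H w n j) b c := by
  unfold occ
  rw [← measureReal_union (h₁ := fin_occ _ _ _) (h₂ := fin_occ _ _ _)]
  · congr 1
    ext u
    simp only [mem_union, mem_ofPred_eq, mem_Ioc]
    constructor
    · rintro ⟨hu, h3, h4⟩
      rcases le_or_gt (H w n j u) b with h | h
      · exact Or.inl ⟨hu, h3, h⟩
      · exact Or.inr ⟨hu, h, h4⟩
    · rintro (⟨hu, h3, h4⟩ | ⟨hu, h3, h4⟩)
      · exact ⟨hu, h3, h4.trans h2⟩
      · exact ⟨hu, lt_of_le_of_lt h1 h3, h4⟩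
  · rw [Set.disjoint_left]
    rintro u ⟨_, _, h3⟩ ⟨_, h4, _⟩
    exact absurd h4 (not_lt.2 h3)
  · exact measurableSet_Icc.inter ((H_cont w hw n j).measurable measurableSet_Ioc)

/-- distribution function of the occupation measure -/
noncomputable def cdf (y : ℝ) : ℝ := volume.real {x : ℝ | x ∈ Icc (0:ℝ) 1 ∧ tak w x ≤ y}

theorem cdf_fin (y : ℝ) : volume {x : ℝ | x ∈ Icc (0:ℝ) 1 ∧ tak w x ≤ y} ≠ ⊤ := by
  refine ne_top_of_le_ne_top ?_ (measure_mono (fun u hu => hu.1 : _ ⊆ Icc (0:ℝ) 1))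
  simp

theorem cdf_mono : Monotone (cdf w) := by
  intro a b hab
  exact measureReal_mono (fun u hu => ⟨hu.1, hu.2.trans hab⟩) (cdf_fin w b)

theorem cdf_sub (hw : Sgn w) (a b : ℝ) (hab : a ≤ b) :
    cdf w b - cdf w a = occ (tak w) a b := by
  unfold cdf occ
  rw [sub_eq_iff_eq_add, ← measureReal_union (h₁ := fin_occ _ _ _) (h₂ := cdf_fin w _)]
  · congr 1
    ext u
    simp only [mem_union, mem_ofPred_eq, mem_Ioc]
    constructor
    · rintro ⟨hu, h4⟩
      rcases le_or_gt (tak w u) a with h | h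
      · exact Or.inr ⟨hu, h⟩
      · exact Or.inl ⟨hu, h, h4⟩
    · rintro (⟨hu, h3, h4⟩ | ⟨hu, h3⟩)
      · exact ⟨hu, h4⟩
      · exact ⟨hu, h3.trans hab⟩
  · rw [Set.disjoint_left]
    rintro u ⟨_, h3, _⟩ ⟨_, h4⟩
    exact absurd h3 (not_lt.2 h4)
  · exact measurableSet_Icc.inter ((cont w hw).measurable measurableSet_Iic)

end TKL
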