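import Pool.Agent.TKL.D

/-! # The masses of the nodes of one level add up -/

open MeasureTheory Set Filter Topology R109.GT

namespace TKL

variable (w : ℕ → ℤ → ℤ)

theorem occ_eq_integral {h : ℝ → ℝ} (hm : Measurable h) (a b : ℝ) :
    occ h a b = ∫ u in (0:ℝ)..1, (h ⁻¹' Ioc a b).indicator (fun _ => (1:ℝ)) u := by
  rw [intervalIntegral.integral_of_le zero_le_one, ← integral_Icc_eq_integral_Ioc,
    setIntegral_indicator (hm measurableSet_Ioc)]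
  unfold occ
  rw [setIntegral_const, smul_eq_mul, mul_one]
  rfl

theorem ind_int {h : ℝ → ℝ} (hm : Measurable h) (a b x y : ℝ) :
    IntervalIntegrable ((h ⁻¹' Ioc a b).indicator (fun _ => (1:ℝ))) volume x y := by
  rw [intervalIntegrable_iff]
  refine Measure.integrableOn_of_bounded (M := 1) ?_ ?_ ?_
  · simp
  · exact (measurable_const.indicator (hm measurableSet_Ioc)).aestronglyMeasurable
  · refine ae_of_all _ fun u => ?_
    by_cases hu : u ∈ h ⁻¹' Ioc a b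
    · rw [indicator_of_mem hu]; simp
    · rw [indicator_of_notMem hu]; simp

theorem sum_Nd {M : Type*} [AddCommMonoid M] (m : ℕ) (F : ℤ → M) : ∑ j ∈ Nd m, F j = ∑ i ∈ Finset.range (2 ^ m), F (i:ℤ) := by
  symm
  refine Finset.sum_bij (fun (i:ℕ) _ => (i:ℤ)) ?_ ?_ ?_ ?_
  · intro i hi
    rw [mem_Nd]
    rw [Finset.mem_range] at hi
    refine ⟨by omega, ?_⟩
    exact_mod_cast hi
  · intro i _ i' _ h
    exact_mod_cast h
  · intro j hj
    rw [mem_Nd] at hj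
    refine ⟨j.toNat, ?_, ?_⟩
    · rw [Finset.mem_range]
      have : ((j.toNat : ℕ) : ℤ) < ((2 ^ m : ℕ) : ℤ) := by
        rw [Int.toNat_of_nonneg hj.1]; push_cast; exact hj.2
      exact_mod_cast this
    · exact Int.toNat_of_nonneg hj.1
  · intro i _; rfl

theorem part_occ (hw : Sgn w) (m : ℕ) (a b : ℝ) :
    (2:ℝ) ^ m * occ (tak w) (a / 2 ^ m) (b / 2 ^ m) = ∑ j ∈ Nd m, occ (H w m j) a b := by
  have hp : (0:ℝ) < 2 ^ m := by positivity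
  have hmt : Measurable (tak w) := (cont w hw).measurable
  rw [sum_Nd]
  set ι : ℝ → ℝ := (tak w ⁻¹' Ioc (a / 2 ^ m) (b / 2 ^ m)).indicator (fun _ => (1:ℝ)) with hι
  have h1 : occ (tak w) (a / 2 ^ m) (b / 2 ^ m) = ∫ u in (0:ℝ)..1, ι u := occ_eq_integral hmt _ _
  have h2 : ∑ i ∈ Finset.range (2 ^ m), ∫ x in ((i:ℕ):ℝ) / 2 ^ m..((i + 1 : ℕ) : ℝ) / 2 ^ m, ι x =
      ∫ x in (((0:ℕ):ℝ) / 2 ^ m)..(((2 ^ m : ℕ) : ℝ) / 2 ^ m), ι x :=
    intervalIntegral.sum_integral_adjacent_intervals (a := fun i : ℕ => (i:ℝ) / 2 ^ m)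
      (fun i _ => ind_int hmt _ _ _ _)
  have h3 : (((0:ℕ):ℝ) / 2 ^ m) = 0 := by simp
  have h4 : (((2 ^ m : ℕ) : ℝ) / 2 ^ m) = 1 := by push_cast; field_simp
  rw [h3, h4] at h2
  rw [h1, ← h2, Finset.mul_sum]
  apply Finset.sum_congr rfl
  intro i _
  rw [occ_eq_integral (H_cont w hw m i).measurable]
  have h5 := intervalIntegral.integral_comp_div_add (a := (0:ℝ)) (b := 1) ι hp.ne' ((i:ℝ) / 2 ^ m)
  have h6 : (0:ℝ) / 2 ^ m + (i:ℝ) / 2 ^ m = (i:ℝ) / 2 ^ m := by ring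
  have h7 : (1:ℝ) / 2 ^ m + (i:ℝ) / 2 ^ m = ((i + 1 : ℕ) : ℝ) / 2 ^ m := by push_cast; ring
  rw [h6, h7, smul_eq_mul] at h5
  rw [← h5]
  apply intervalIntegral.integral_congr
  intro u hu
  rw [uIcc_of_le zero_le_one] at hu
  have h8 := local_eq w hw m (i:ℤ) u hu.1 hu.2
  have h9 : u / 2 ^ m + (i:ℝ) / 2 ^ m = (((i:ℤ):ℝ) + u) / 2 ^ m := by push_cast; ring
  show ι (u / 2 ^ m + (i:ℝ) / 2 ^ m) = _
  rw [h9, hι]
  have hiff : ((((i:ℤ):ℝ) + u) / 2 ^ m ∈ tak w ⁻¹' Ioc (a / 2 ^ m) (b / 2 ^ m)) ↔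
      u ∈ H w m (i:ℤ) ⁻¹' Ioc a b := by
    rw [mem_preimage, mem_preimage, ← h8, mem_Ioc, mem_Ioc, div_lt_iff₀ hp, le_div_iff₀ hp,
      mul_comm ((2:ℝ) ^ m)]
  by_cases hm : u ∈ H w m (i:ℤ) ⁻¹' Ioc a b
  · rw [indicator_of_mem hm, indicator_of_mem (hiff.2 hm)]
  · rw [indicator_of_notMem hm, indicator_of_notMem (fun h => hm (hiff.1 h))]

end TKL
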