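import Pool.Agent.TKL.E

/-! # For almost every `y` there are infinitely many levels at which all nodes near `y` are steep -/

open MeasureTheory Set Filter Topology R109.GT
open scoped ENNReal

namespace TKL

variable (w : ℕ → ℤ → ℤ)

theorem sum_range_two {M : Type*} [AddCommMonoid M] (N : ℕ) (F : ℕ → M) :
    ∑ i ∈ Finset.range (2 * N), F i = ∑ i ∈ Finset.range N, (F (2 * i) + F (2 * i + 1)) := by
  induction N with
  | zero => simp
  | succ N ih =>
    rw [show 2 * (N + 1) = 2 * N + 1 + 1 by ring, Finset.sum_range_succ, Finset.sum_range_succ, ih,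
      Finset.sum_range_succ (fun i => F (2 * i) + F (2 * i + 1)), add_assoc]

/-- number of nodes with slope `a` -/
noncomputable def cnt (n : ℕ) (a : ℤ) : ℕ := ∑ j ∈ Nd n, if R109.GT.slope w n j = a then 1 else 0

theorem cnt_succ (hw : Sgn w) (n : ℕ) (a : ℤ) :
    cnt w (n+1) a = cnt w n (a - 1) + cnt w n (a + 1) := by
  unfold cnt
  rw [sum_Nd, sum_Nd, sum_Nd, pow_succ', sum_range_two, ← Finset.sum_add_distrib]
  apply Finset.sum_congr rfl
  intro i _
  have e1 : ((2 * i : ℕ) : ℤ) = 2 * (i:ℤ) := by push_cast; ring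
  have e2 : ((2 * i + 1 : ℕ) : ℤ) = 2 * (i:ℤ) + 1 := by push_cast; ring
  rw [e1, e2, slope_even, slope_odd]
  rcases hw n i with h | h <;> rw [h] <;> split_ifs <;> omega

theorem cnt_choose (hw : Sgn w) (n : ℕ) :
    (∀ i : ℕ, cnt w n (2 * i - n) = n.choose i) ∧
      ∀ a : ℤ, (∀ i : ℕ, a ≠ 2 * i - n) → cnt w n a = 0 := by
  induction n with
  | zero =>
    have h0 : ∀ a, cnt w 0 a = if (0:ℤ) = a then 1 else 0 := by
      intro a
      unfold cnt
      rw [sum_Nd]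
      simp [R109.GT.slope]
    constructor
    · intro i
      rw [h0]
      rcases Nat.eq_zero_or_pos i with h | h
      · subst h; simp
      · rw [if_neg (by push_cast; omega)]
        obtain ⟨k, rfl⟩ := Nat.exists_eq_succ_of_ne_zero h.ne'
        simp
    · intro a ha
      rw [h0, if_neg]
      intro h
      exact ha 0 (by rw [← h]; simp)
  | succ n ih =>
    constructor
    · intro i
      rw [cnt_succ w hw]
      rcases Nat.eq_zero_or_pos i with h | h
      · subst h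
        have e1 : cnt w n (2 * ((0:ℕ):ℤ) - ((n + 1 : ℕ) : ℤ) - 1) = 0 := by
          apply ih.2
          intro i; push_cast; omega
        have e2 := ih.1 0
        have e3 : (2 * ((0:ℕ):ℤ) - ((n + 1 : ℕ) : ℤ) + 1) = 2 * ((0:ℕ):ℤ) - n := by push_cast; ring
        rw [e1, e3, e2]; simp
      · obtain ⟨k, rfl⟩ := Nat.exists_eq_succ_of_ne_zero h.ne'
        have e2 := ih.1 k
        have e3 := ih.1 (k + 1)
        have e4 : (2 * ((k.succ:ℕ):ℤ) - ((n + 1 : ℕ) : ℤ) - 1) = 2 * (k:ℤ) - n := by push_cast; ring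
        have e5 : (2 * ((k.succ:ℕ):ℤ) - ((n + 1 : ℕ) : ℤ) + 1) = 2 * ((k+1:ℕ):ℤ) - n := by
          push_cast; ring
        rw [e4, e5, e2, e3, Nat.succ_eq_add_one, Nat.choose_succ_succ]
    · intro a ha
      rw [cnt_succ w hw, ih.2, ih.2]
      · intro i h
        have := ha i
        push_cast at this; omega
      · intro i h
        have := ha (i+1)
        push_cast at this; omega

theorem cnt_le (hw : Sgn w) (k : ℕ) (a : ℤ) : cnt w (2 * k) a ≤ k.centralBinom := by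
  by_cases h : ∃ i : ℕ, a = 2 * i - ((2 * k : ℕ) : ℤ)
  · obtain ⟨i, rfl⟩ := h
    rw [(cnt_choose w hw (2 * k)).1 i]
    exact Nat.choose_le_centralBinom i k
  · push Not at h
    rw [(cnt_choose w hw (2 * k)).2 a h]
    exact Nat.zero_le _

theorem cb_bound (k : ℕ) : (2 * k + 1) * k.centralBinom ^ 2 ≤ 16 ^ k := by
  induction k with
  | zero => simp
  | succ k ih =>
    have h := Nat.succ_mul_centralBinom_succ k
    have h2 : ((k+1) * (k+1).centralBinom)^2 = (2 * (2 * k + 1) * k.centralBinom)^2 := by rw [h]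
    have h3 : (k+1)^2 * ((2 * (k+1) + 1) * (k+1).centralBinom ^ 2) ≤ (k+1)^2 * 16 ^ (k+1) := by
      calc (k+1)^2 * ((2 * (k+1) + 1) * (k+1).centralBinom ^ 2)
          = (2 * k + 3) * ((k+1) * (k+1).centralBinom)^2 := by ring
        _ = (2 * k + 3) * (2 * (2 * k + 1) * k.centralBinom)^2 := by rw [h2]
        _ = 4 * (2 * k + 3) * (2 * k + 1) * ((2 * k + 1) * k.centralBinom ^ 2) := by ring
        _ ≤ 4 * (2 * k + 3) * (2 * k + 1) * 16 ^ k := Nat.mul_le_mul_left _ ih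
        _ ≤ (16 * (k+1)^2) * 16 ^ k := by
            apply Nat.mul_le_mul_right
            nlinarith
        _ = (k+1)^2 * 16 ^ (k+1) := by ring
    exact Nat.le_of_mul_le_mul_left h3 (by positivity)

theorem card_small (hw : Sgn w) (k T : ℕ) :
    (((Nd (2 * k)).filter (fun j => A w (2 * k) j ≤ T)).card : ℕ) ≤ (2 * T + 1) * k.centralBinom := by
  have h1 : ((Nd (2 * k)).filter (fun j => A w (2 * k) j ≤ T)) ⊆
      (Finset.Icc (-(T:ℤ)) T).biUnion (fun a => (Nd (2 * k)).filter (fun j => R109.GT.slope w (2 * k) j = a)) := by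
    intro j hj
    rw [Finset.mem_filter] at hj
    rw [Finset.mem_biUnion]
    refine ⟨R109.GT.slope w (2 * k) j, ?_, ?_⟩
    · rw [Finset.mem_Icc]
      have := hj.2
      unfold A at this
      omega
    · rw [Finset.mem_filter]; exact ⟨hj.1, rfl⟩
  refine (Finset.card_le_card h1).trans ?_
  refine Finset.card_biUnion_le.trans ?_
  have h2 : ∀ a ∈ Finset.Icc (-(T:ℤ)) T, ((Nd (2 * k)).filter (fun j => R109.GT.slope w (2 * k) j = a)).card ≤
      k.centralBinom := by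
    intro a _
    rw [Finset.card_filter]
    exact cnt_le w hw k a
  refine (Finset.sum_le_sum h2).trans ?_
  rw [Finset.sum_const, smul_eq_mul, Int.card_Icc]
  apply Nat.mul_le_mul_right
  omega

/-- `y` lies within `ρ` cells of the range of the node -/
def Near (n : ℕ) (j : ℤ) (y ρ : ℝ) : Prop :=
  (lo w n j : ℝ) - ρ ≤ 2 ^ n * y ∧ 2 ^ n * y ≤ lo w n j + A w n j + ρ

theorem bad_vol (hw : Sgn w) (k T ρ : ℕ) :
    volume {y : ℝ | ∃ j ∈ Nd (2 * k), A w (2 * k) j ≤ T ∧ Near w (2 * k) j y ρ} ≤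
      ENNReal.ofReal (((2 * T + 1) * (T + 2 * ρ) : ℝ) * (k.centralBinom / 4 ^ k)) := by
  have hp : (0:ℝ) < 2 ^ (2 * k) := by positivity
  have hsub : {y : ℝ | ∃ j ∈ Nd (2 * k), A w (2 * k) j ≤ T ∧ Near w (2 * k) j y ρ} ⊆
      ⋃ j ∈ (Nd (2 * k)).filter (fun j => A w (2 * k) j ≤ T),
        Icc (((lo w (2 * k) j : ℝ) - ρ) / 2 ^ (2 * k))
          (((lo w (2 * k) j : ℝ) + A w (2 * k) j + ρ) / 2 ^ (2 * k)) := by
    rintro y ⟨j, hj, hA, hN⟩
    simp only [mem_iUnion]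
    refine ⟨j, Finset.mem_filter.2 ⟨hj, hA⟩, ?_, ?_⟩
    · rw [div_le_iff₀ hp]; linarith [hN.1]
    · rw [le_div_iff₀ hp]; linarith [hN.2]
  refine (measure_mono hsub).trans ?_
  refine (measure_biUnion_finset_le _ _).trans ?_
  have h1 : ∀ j ∈ (Nd (2 * k)).filter (fun j => A w (2 * k) j ≤ T),
      volume (Icc (((lo w (2 * k) j : ℝ) - ρ) / 2 ^ (2 * k))
          (((lo w (2 * k) j : ℝ) + A w (2 * k) j + ρ) / 2 ^ (2 * k))) ≤
        ENNReal.ofReal (((T + 2 * ρ) : ℝ) / 2 ^ (2 * k)) := by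
    intro j hj
    rw [Real.volume_Icc]
    apply ENNReal.ofReal_le_ofReal
    have hA : (A w (2 * k) j : ℝ) ≤ T := by exact_mod_cast (Finset.mem_filter.1 hj).2
    rw [← sub_div]
    apply div_le_div_of_nonneg_right _ hp.le
    linarith
  refine (Finset.sum_le_sum h1).trans ?_
  rw [Finset.sum_const, nsmul_eq_mul]
  have h2 : ((((Nd (2 * k)).filter (fun j => A w (2 * k) j ≤ T)).card : ℕ) : ℝ) ≤
      (2 * T + 1) * k.centralBinom := by exact_mod_cast card_small w hw k T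
  rw [← ENNReal.ofReal_natCast, ← ENNReal.ofReal_mul (by positivity)]
  apply ENNReal.ofReal_le_ofReal
  have h4 : (2:ℝ) ^ (2 * k) = 4 ^ k := by rw [pow_mul]; norm_num
  rw [h4]
  have h5 : (0:ℝ) ≤ (T + 2 * ρ) / 4 ^ k := by positivity
  calc _ ≤ ((2 * T + 1) * k.centralBinom) * ((T + 2 * ρ : ℝ) / 4 ^ k) :=
        mul_le_mul_of_nonneg_right h2 h5
    _ = _ := by ring

theorem cb_small (C ε : ℝ) (_hC : 0 ≤ C) (hε : 0 < ε) (n0 : ℕ) :
    ∃ k : ℕ, n0 ≤ k ∧ C * (k.centralBinom / 4 ^ k) < ε := by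
  obtain ⟨N, hN⟩ := exists_nat_gt ((C / ε) ^ 2)
  refine ⟨max n0 N, le_max_left _ _, ?_⟩
  set k := max n0 N with hk
  have hNk : (N:ℝ) ≤ k := by exact_mod_cast le_max_right n0 N
  have h1 : ((2 * k + 1 : ℝ)) * (k.centralBinom : ℝ) ^ 2 ≤ 16 ^ k := by exact_mod_cast cb_bound k
  have h2 : ((k.centralBinom : ℝ) / 4 ^ k) ^ 2 * (2 * k + 1) ≤ 1 := by
    rw [div_pow, ← pow_mul, mul_comm k 2, pow_mul]
    norm_num
    rw [div_mul_eq_mul_div, div_le_one (by positivity)]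
    linarith
  by_contra hc
  push Not at hc
  have h3 : ε ^ 2 ≤ (C * (k.centralBinom / 4 ^ k)) ^ 2 := pow_le_pow_left₀ hε.le hc 2
  have h4 : (C / ε) ^ 2 < 2 * k + 1 := by
    have : (0:ℝ) ≤ k := by positivity
    linarith
  have h5 : C ^ 2 < (2 * k + 1) * ε ^ 2 := by
    rw [div_pow, div_lt_iff₀ (by positivity)] at h4
    exact h4
  have h6 : (C * (k.centralBinom / 4 ^ k)) ^ 2 * (2 * k + 1) ≤ C ^ 2 := by
    rw [mul_pow, mul_assoc]
    calc C ^ 2 * (((k.centralBinom : ℝ) / 4 ^ k) ^ 2 * (2 * k + 1)) ≤ C ^ 2 * 1 :=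
          mul_le_mul_of_nonneg_left h2 (by positivity)
      _ = C ^ 2 := mul_one _
  have h7 : ε ^ 2 * (2 * k + 1) ≤ (C * (k.centralBinom / 4 ^ k)) ^ 2 * (2 * k + 1) :=
    mul_le_mul_of_nonneg_right h3 (by positivity)
  linarith

theorem good_levels (hw : Sgn w) : ∀ᵐ y ∂(volume : Measure ℝ), ∀ T ρ n0 : ℕ,
    ∃ n, n0 ≤ n ∧ ∀ j ∈ Nd n, Near w n j y ρ → T + 1 ≤ A w n j := by
  rw [ae_all_iff]; intro T
  rw [ae_all_iff]; intro ρ
  rw [ae_all_iff]; intro n0
  rw [ae_iff]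
  refine le_antisymm ?_ bot_le
  refine ENNReal.le_of_forall_pos_le_add ?_
  intro ε hε _
  obtain ⟨k, hk, hk2⟩ := cb_small ((2 * T + 1) * (T + 2 * ρ)) ε (by positivity) (by exact_mod_cast hε) n0
  rw [zero_add]
  calc _ ≤ volume {y : ℝ | ∃ j ∈ Nd (2 * k), A w (2 * k) j ≤ T ∧ Near w (2 * k) j y ρ} := by
        apply measure_mono
        intro y hy
        rw [mem_ofPred_eq] at hy
        push Not at hy
        obtain ⟨j, hj, h1, h2⟩ := hy (2 * k) (by omega)
        exact ⟨j, hj, by omega, h1⟩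
    _ ≤ _ := bad_vol w hw k T ρ
    _ ≤ ENNReal.ofReal ε := ENNReal.ofReal_le_ofReal hk2.le
    _ = ε := ENNReal.ofReal_coe_nnreal

end TKL
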