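import Pool.Agent.TKL.E

/-! # Weights of the nodes crossing a cell -/

open MeasureTheory Set Filter Topology R109.GT
open scoped Classical

namespace TKL

variable (w : ℕ → ℤ → ℤ)

/-- nodes of level `m` crossing the cell `c` -/
noncomputable def CovS (m : ℕ) (c : ℤ) : Finset ℤ := (Nd m).filter (fun j => Cov w m j c)

/-- total weight of the crossing nodes -/
noncomputable def W (m : ℕ) (c : ℤ) : ℝ := ∑ j ∈ CovS w m c, 1 / (A w m j : ℝ)

theorem mem_CovS {m : ℕ} {c j : ℤ} : j ∈ CovS w m c ↔ j ∈ Nd m ∧ Cov w m j c := by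
  unfold CovS; rw [Finset.mem_filter]

theorem W_eq (m : ℕ) (c : ℤ) : W w m c = ∑ j ∈ Nd m, if Cov w m j c then 1 / (A w m j : ℝ) else 0 := by
  unfold W CovS; rw [Finset.sum_filter]

theorem W_le (hw : Sgn w) (m : ℕ) (c : ℤ) :
    W w m c ≤ ∑ j ∈ Nd m, occ (H w m j) (c - 1) (c + 2) := by
  rw [W_eq]
  apply Finset.sum_le_sum
  intro j _
  split_ifs with h
  · exact mass_wide w hw m j c h
  · exact occ_nonneg _ _ _

theorem mass_le_W (hw : Sgn w) {θ : ℝ} {S0 : ℕ} (hT : Thr θ S0) (m : ℕ) (c : ℤ)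
    (henv : ∀ j ∈ Nd m, lo w m j ≤ c + 1 → c ≤ lo w m j + A w m j → S0 ≤ A w m j) :
    ∑ j ∈ Nd m, occ (H w m j) c (c + 1) ≤
      (1 + 2 * θ) * W w m c + θ * (W w m (c - 1) + W w m (c + 1)) := by
  rw [W_eq, W_eq, W_eq, ← Finset.sum_add_distrib, Finset.mul_sum, Finset.mul_sum,
    ← Finset.sum_add_distrib]
  apply Finset.sum_le_sum
  intro j hj
  have hθ : 0 ≤ θ := hT.1
  have hA0 : (0:ℝ) ≤ 1 / (A w m j : ℝ) := by positivity
  have n1 : (0:ℝ) ≤ (if Cov w m j c then 1 / (A w m j : ℝ) else 0) := by split_ifs <;> positivity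
  have n2 : (0:ℝ) ≤ (if Cov w m j (c - 1) then 1 / (A w m j : ℝ) else 0) := by
    split_ifs <;> positivity
  have n3 : (0:ℝ) ≤ (if Cov w m j (c + 1) then 1 / (A w m j : ℝ) else 0) := by
    split_ifs <;> positivity
  have p1 : 0 ≤ (1 + 2 * θ) * (if Cov w m j c then 1 / (A w m j : ℝ) else 0) := by positivity
  by_cases hnear : lo w m j ≤ c + 1 ∧ c ≤ lo w m j + A w m j
  · have hA := henv j hj hnear.1 hnear.2
    have hA1 : 1 ≤ A w m j := hT.2.2.1.trans hA
    by_cases hcov : Cov w m j c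
    · have h1 := mass_cov_le w hw hT m j c hA hcov
      rw [if_pos hcov]
      have e : (1 + 2 * θ) / (A w m j : ℝ) = (1 + 2 * θ) * (1 / (A w m j : ℝ)) := by ring
      rw [e] at h1
      have : 0 ≤ θ * ((if Cov w m j (c - 1) then 1 / (A w m j : ℝ) else 0) +
        (if Cov w m j (c + 1) then 1 / (A w m j : ℝ) else 0)) := by positivity
      linarith
    · by_cases hlo : lo w m j = c + 1
      · have h1 := mass_below w hw hT m j c hA hlo.symm
        have hc : Cov w m j (c + 1) := by unfold Cov; omega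
        rw [if_pos hc]
        have e : θ / (A w m j : ℝ) = θ * (1 / (A w m j : ℝ)) := by ring
        rw [e] at h1
        have : 0 ≤ θ * (if Cov w m j (c - 1) then 1 / (A w m j : ℝ) else 0) := by positivity
        rw [mul_add]
        linarith
      · have hhi : c = lo w m j + A w m j := by unfold Cov at hcov; omega
        have h1 := mass_above w hw hT m j c hA hhi
        have hc : Cov w m j (c - 1) := by unfold Cov; omega
        rw [if_pos hc]
        have e : θ / (A w m j : ℝ) = θ * (1 / (A w m j : ℝ)) := by ring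
        rw [e] at h1
        have : 0 ≤ θ * (if Cov w m j (c + 1) then 1 / (A w m j : ℝ) else 0) := by positivity
        rw [mul_add]
        linarith
  · rw [mass_far w hw m j c hnear]
    positivity

theorem final_mass (hw : Sgn w) {θ : ℝ} {S0 : ℕ} (hT : Thr θ S0) (m : ℕ) (js : ℤ) (hjs : js ∈ Nd m)
    (h0 : R109.GT.slope w m js = 0) :
    1 + (1 - 2 * θ) * ((∑ j ∈ (CovS w m (val w m js - 1)).filter (fun j => S0 ≤ A w m j),
        1 / (A w m j : ℝ)) +
      ∑ j ∈ (CovS w m (val w m js)).filter (fun j => S0 ≤ A w m j), 1 / (A w m j : ℝ)) ≤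
    ∑ j ∈ Nd m, occ (H w m j) ((val w m js : ℝ) - 1) ((val w m js : ℝ) + 1) := by
  set v := val w m js with hv
  have e1 : ∀ c : ℤ, (∑ j ∈ (CovS w m c).filter (fun j => S0 ≤ A w m j), 1 / (A w m j : ℝ)) =
      ∑ j ∈ Nd m, if Cov w m j c ∧ S0 ≤ A w m j then 1 / (A w m j : ℝ) else 0 := by
    intro c
    unfold CovS
    rw [Finset.filter_filter, Finset.sum_filter]
  rw [e1, e1, ← Finset.sum_add_distrib, Finset.mul_sum]
  have hA0 : A w m js = 0 := by unfold A; rw [h0]; rfl
  have hone : (1:ℝ) = ∑ j ∈ Nd m, if j = js then (1:ℝ) else 0 := by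
    rw [Finset.sum_ite_eq' (Nd m) js, if_pos hjs]
  suffices hsuff : (∑ j ∈ Nd m, if j = js then (1:ℝ) else 0) + ∑ j ∈ Nd m, (1 - 2 * θ) *
      ((if Cov w m j (v - 1) ∧ S0 ≤ A w m j then 1 / (A w m j : ℝ) else 0) +
        (if Cov w m j v ∧ S0 ≤ A w m j then 1 / (A w m j : ℝ) else 0)) ≤
      ∑ j ∈ Nd m, occ (H w m j) ((v:ℝ) - 1) ((v:ℝ) + 1) by
    rwa [← hone] at hsuff
  rw [← Finset.sum_add_distrib]
  apply Finset.sum_le_sum
  intro j hj
  have hθ := hT.1
  have hθ4 := hT.2.1
  by_cases hjj : j = js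
  · subst hjj
    rw [if_pos rfl, mass_zero w hw m j h0]
    have hn : ∀ c, ¬ (Cov w m j c ∧ S0 ≤ A w m j) := by
      rintro c ⟨hc, -⟩
      have := cov_pos w hc
      omega
    rw [if_neg (hn _), if_neg (hn _)]
    simp
  · rw [if_neg hjj, zero_add, occ_split w hw m j _ (v:ℝ) _ (by linarith) (by linarith), mul_add]
    apply add_le_add
    · split_ifs with hc
      · have := mass_cov_ge w hw hT m j (v - 1) hc.2 hc.1
        push_cast at this
        rw [sub_add_cancel] at this
        calc _ = (1 - 2 * θ) / (A w m j : ℝ) := by ring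
          _ ≤ _ := this
      · rw [mul_zero]; exact occ_nonneg _ _ _
    · split_ifs with hc
      · have := mass_cov_ge w hw hT m j v hc.2 hc.1
        calc _ = (1 - 2 * θ) / (A w m j : ℝ) := by ring
          _ ≤ _ := this
      · rw [mul_zero]; exact occ_nonneg _ _ _

theorem lineage (hw : Sgn w) (m t : ℕ) (c : ℤ) : ∃ e : ℤ → ℤ, ∀ j ∈ CovS w m (c / 2 ^ t),
    e j ∈ CovS w (m + t) c ∧ e j / 2 ^ t = j ∧ A w (m + t) (e j) ≤ A w m j + t ∧
      A w m j ≤ A w (m + t) (e j) + t := by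
  have : ∀ j : ℤ, ∃ j' : ℤ, j ∈ CovS w m (c / 2 ^ t) → (j' ∈ CovS w (m + t) c ∧ j' / 2 ^ t = j ∧
      A w (m + t) j' ≤ A w m j + t ∧ A w m j ≤ A w (m + t) j' + t) := by
    intro j
    by_cases hj : j ∈ CovS w m (c / 2 ^ t)
    · rw [mem_CovS] at hj
      obtain ⟨j', h1, h2⟩ := cov_desc w hw m t j c hj.2
      refine ⟨j', fun _ => ⟨?_, h1, ?_⟩⟩
      · rw [mem_CovS]
        refine ⟨?_, h2⟩
        rw [div_mem_Nd, h1]; exact hj.1
      · have := A_desc w hw m t j'
        rw [h1] at this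
        exact this
    · exact ⟨0, fun h => absurd h hj⟩
  choose e he using this
  exact ⟨e, fun j hj => he j hj⟩

theorem lineage_sum (hw : Sgn w) (m t K S0 : ℕ) (c : ℤ) (hK : 2 ≤ K) (hS : S0 ≤ (K - 1) * t)
    (ht : 1 ≤ t) :
    (1 - 1 / (K:ℝ)) * ∑ j ∈ (CovS w m (c / 2 ^ t)).filter (fun j => K * t < A w m j), 1 / (A w m j : ℝ) ≤
      ∑ j ∈ (CovS w (m + t) c).filter (fun j => S0 ≤ A w (m + t) j), 1 / (A w (m + t) j : ℝ) := by
  obtain ⟨e, he⟩ := lineage w hw m t c
  rw [Finset.mul_sum]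
  have hinj : Set.InjOn e ((CovS w m (c / 2 ^ t)).filter (fun j => K * t < A w m j)) := by
    intro a ha b hb hab
    have h1 := (he a (Finset.mem_filter.1 ha).1).2.1
    have h2 := (he b (Finset.mem_filter.1 hb).1).2.1
    rw [← h1, ← h2, hab]
  calc ∑ j ∈ (CovS w m (c / 2 ^ t)).filter (fun j => K * t < A w m j),
        (1 - 1 / (K:ℝ)) * (1 / (A w m j : ℝ))
      ≤ ∑ j ∈ (CovS w m (c / 2 ^ t)).filter (fun j => K * t < A w m j),
        1 / (A w (m + t) (e j) : ℝ) := by
        apply Finset.sum_le_sum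
        intro j hj
        rw [Finset.mem_filter] at hj
        obtain ⟨h1, -, h3, h4⟩ := he j hj.1
        have hpos : 1 ≤ A w (m + t) (e j) := cov_pos w ((mem_CovS w).1 h1).2
        have hp : (0:ℝ) < A w (m + t) (e j) := by exact_mod_cast hpos
        have hA : (K:ℝ) * t < A w m j := by exact_mod_cast hj.2
        have hKp : (0:ℝ) < K := by
          have : 0 < K := by omega
          exact_mod_cast this
        have htp : (1:ℝ) ≤ t := by exact_mod_cast ht
        have hAp : (0:ℝ) < A w m j := by nlinarith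
        have h3' : (A w (m + t) (e j) : ℝ) ≤ A w m j + t := by exact_mod_cast h3
        rw [le_div_iff₀ hp]
        have hK1 : (1:ℝ) ≤ K := by
          have : 1 ≤ K := by omega
          exact_mod_cast this
        have e1 : (1 - 1 / (K:ℝ)) * (1 / (A w m j : ℝ)) = (K - 1) / (K * A w m j) := by
          field_simp
        rw [e1, div_mul_eq_mul_div, div_le_one (by positivity)]
        nlinarith
    _ = ∑ j ∈ ((CovS w m (c / 2 ^ t)).filter (fun j => K * t < A w m j)).image e,
        1 / (A w (m + t) j : ℝ) := by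
        rw [Finset.sum_image]
        exact hinj
    _ ≤ _ := by
        apply Finset.sum_le_sum_of_subset_of_nonneg
        · intro j' hj'
          rw [Finset.mem_image] at hj'
          obtain ⟨j, hj, rfl⟩ := hj'
          rw [Finset.mem_filter] at hj ⊢
          obtain ⟨h1, -, h3, h4⟩ := he j hj.1
          refine ⟨h1, ?_⟩
          have h5 : (K - 1) * t + t = K * t := by
            obtain ⟨q, rfl⟩ : ∃ q, K = q + 1 := ⟨K - 1, by omega⟩
            simp; ring
          have := hj.2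
          omega
        · intro i _ _; positivity

theorem lineage_card (hw : Sgn w) (m t K : ℕ) (c : ℤ) :
    ((CovS w m (c / 2 ^ t)).filter (fun j => A w m j ≤ K * t)).card ≤
      ((CovS w (m + t) c).filter (fun j => A w (m + t) j ≤ (K + 1) * t)).card := by
  obtain ⟨e, he⟩ := lineage w hw m t c
  apply Finset.card_le_card_of_injOn e
  · intro j hj
    have hj' := Finset.mem_filter.1 hj
    obtain ⟨h1, -, h3, h4⟩ := he j hj'.1
    refine Finset.mem_coe.2 (Finset.mem_filter.2 ⟨h1, ?_⟩)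
    have h5 := hj'.2
    rw [add_mul, one_mul]; omega
  · intro a ha b hb hab
    have h1 := (he a (Finset.mem_filter.1 ha).1).2.1
    have h2 := (he b (Finset.mem_filter.1 hb).1).2.1
    rw [← h1, ← h2, hab]

end TKL
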