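import Pool.Agent.TKL.G

/-! # The contradiction from a quickly descending lineage -/

open MeasureTheory Set Filter Topology R109.GT
open scoped Classical

namespace TKL

theorem tele (x : ℝ) (hx : 0 < x) (K0 : ℕ) (hK0 : 1 ≤ K0) (T : ℕ) (hT : K0 ≤ T) :
    ∑ t ∈ Finset.Ico K0 T, (if x ≤ t then 1 / ((t:ℝ) * (t + 1)) else 0) ≤
      if x ≤ T then 1 / x - 1 / T else 0 := by
  induction T, hT using Nat.le_induction with
  | base =>
    rw [Finset.Ico_self, Finset.sum_empty]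
    split_ifs with h
    · have : (1:ℝ) / K0 ≤ 1 / x := one_div_le_one_div_of_le hx h
      linarith
    · exact le_rfl
  | succ T hT ih =>
    rw [Finset.sum_Ico_succ_top hT]
    have hTp : (1:ℝ) ≤ T := by exact_mod_cast hK0.trans hT
    have hT0 : (0:ℝ) < T := by linarith
    push_cast
    by_cases h : x ≤ T
    · rw [if_pos h] at ih ⊢
      rw [if_pos (by linarith)]
      have e : (1:ℝ) / (T * (T + 1)) = 1 / T - 1 / (T + 1) := by field_simp; ring
      rw [e]; linarith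
    · rw [if_neg h] at ih ⊢
      split_ifs with h2
      · have : (1:ℝ) / (T + 1) ≤ 1 / x := one_div_le_one_div_of_le hx h2
        linarith
      · linarith

theorem tele2 (x : ℝ) (hx : 0 < x) (K0 : ℕ) (hK0 : 1 ≤ K0) (T : ℕ) (hT : K0 ≤ T) :
    ∑ t ∈ Finset.Ico K0 T, (if x ≤ t then 1 / ((t:ℝ) * (t + 1)) else 0) ≤ 1 / x := by
  refine (tele x hx K0 hK0 T hT).trans ?_
  split_ifs with h
  · have : (0:ℝ) ≤ 1 / T := by positivity
    linarith
  · positivity

theorem harm_sum {ι : Type*} (S : Finset ι) (a : ι → ℕ) (ha : ∀ i ∈ S, 1 ≤ a i) (K K0 T : ℕ)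
    (hK0 : 1 ≤ K0) (hT : K0 ≤ T) :
    ∑ t ∈ Finset.Ico K0 T, ((S.filter (fun i => a i ≤ (K + 1) * t)).card : ℝ) /
      ((K + 1) * ((t:ℝ) * (t + 1))) ≤ ∑ i ∈ S, 1 / (a i : ℝ) := by
  have h1 : ∀ t : ℕ, ((S.filter (fun i => a i ≤ (K + 1) * t)).card : ℝ) /
      ((K + 1) * ((t:ℝ) * (t + 1))) =
      ∑ i ∈ S, (if (a i : ℝ) / (K + 1) ≤ t then 1 / ((t:ℝ) * (t + 1)) else 0) / (K + 1) := by
    intro t
    have hK : (0:ℝ) < K + 1 := by positivity
    rw [Finset.card_filter]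
    push_cast
    rw [Finset.sum_div]
    apply Finset.sum_congr rfl
    intro i _
    have hiff : (a i ≤ (K + 1) * t) ↔ ((a i : ℝ) / (K + 1) ≤ t) := by
      rw [div_le_iff₀ hK]
      constructor
      · intro h
        have : (a i : ℝ) ≤ ((K + 1) * t : ℕ) := by exact_mod_cast h
        push_cast at this; linarith
      · intro h
        have : (a i : ℝ) ≤ ((K + 1) * t : ℕ) := by push_cast; linarith
        exact_mod_cast this
    by_cases h : a i ≤ (K + 1) * t
    · rw [if_pos h, if_pos (hiff.1 h)]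
      rw [div_div]; ring
    · rw [if_neg h, if_neg (fun h' => h (hiff.2 h'))]
      simp
  simp_rw [h1]
  rw [Finset.sum_comm]
  apply Finset.sum_le_sum
  intro i hi
  rw [← Finset.sum_div]
  have hai : (0:ℝ) < a i := by exact_mod_cast ha i hi
  have hK : (0:ℝ) < K + 1 := by positivity
  have h2 := tele2 ((a i : ℝ) / (K + 1)) (by positivity) K0 hK0 T hT
  rw [div_le_iff₀ hK]
  calc _ ≤ 1 / ((a i : ℝ) / (K + 1)) := h2
    _ = 1 / (a i : ℝ) * (K + 1) := by field_simp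

variable (w : ℕ → ℤ → ℤ)

theorem core (hw : Sgn w) (D ε θ : ℝ) (K S0 T n : ℕ) (js : ℤ) (hT : Thr θ S0) (_hD : 0 ≤ D)
    (_hε : 0 ≤ ε) (hK : 2 ≤ K) (hST : S0 ≤ T) (hjs : js ∈ Nd (n + T)) (h0 : R109.GT.slope w (n + T) js = 0)
    (env : ∀ t ≤ T, ∀ c : ℤ, (c = val w (n + T) js - 1 ∨ c = val w (n + T) js) →
      ∀ j ∈ Nd (n + (T - t)), lo w (n + (T - t)) j ≤ c / 2 ^ t + 1 →
        c / 2 ^ t ≤ lo w (n + (T - t)) j + A w (n + (T - t)) j → t ≤ A w (n + (T - t)) j)
    (dens : ∀ t ≤ T, ∀ c : ℤ, (c = val w (n + T) js - 1 ∨ c = val w (n + T) js) →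
      ∀ a b : ℤ, c / 2 ^ t - 2 ≤ a → a ≤ b → b ≤ c / 2 ^ t + 3 →
        |∑ j ∈ Nd (n + (T - t)), occ (H w (n + (T - t)) j) a b - D * (b - a)| ≤ ε)
    (par : 3 * ε + (12 * θ + 2 / (K:ℝ)) * (3 * D + ε) ≤ 1 / 2)
    (harm : 4 * (K + 1) * (3 * D + ε) < ∑ t ∈ Finset.Ico S0 T, 1 / ((t:ℝ) + 1)) : False := by
  set v := val w (n + T) js with hv
  have hS1 : 1 ≤ S0 := hT.2.2.1
  have hθ := hT.1
  have hθ4 := hT.2.1
  have hKp : (2:ℝ) ≤ K := by exact_mod_cast hK
  -- weights at the last level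
  have hWM : ∀ c : ℤ, (c = v - 1 ∨ c = v) → W w (n + T) c ≤ 3 * D + ε := by
    intro c hc
    have h1 := W_le w hw (n + T) c
    have h2 := dens 0 (Nat.zero_le _) c hc (c - 1) (c + 2) (by simp) (by omega) (by simp)
    rw [Nat.sub_zero] at h2
    push_cast at h2
    rw [abs_le] at h2
    have e : D * ((c:ℝ) + 2 - (c - 1)) = 3 * D := by ring
    rw [e] at h2
    linarith [h2.2]
  have hfin : ∑ j ∈ Nd (n + T), occ (H w (n + T) j) ((v : ℝ) - 1) ((v : ℝ) + 1) ≤ 2 * D + ε := by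
    have h2 := dens 0 (Nat.zero_le _) (v - 1) (Or.inl rfl) (v - 1) (v + 1)
      (by rw [pow_zero, Int.ediv_one]; omega) (by omega) (by rw [pow_zero, Int.ediv_one]; omega)
    rw [Nat.sub_zero] at h2
    push_cast at h2
    rw [abs_le] at h2
    have e : D * ((v:ℝ) + 1 - (v - 1)) = 2 * D := by ring
    rw [e] at h2
    linarith [h2.2]
  have hfm := (final_mass w hw hT (n + T) js hjs h0).trans hfin
  rw [← hv] at hfm
  -- the main estimate at time `t`
  have key : ∀ t ∈ Finset.Ico S0 T,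
      (t:ℝ) / 2 ≤ (((CovS w (n + T) (v - 1)).filter (fun j => A w (n + T) j ≤ (K + 1) * t)).card : ℝ) +
        (((CovS w (n + T) v).filter (fun j => A w (n + T) j ≤ (K + 1) * t)).card : ℝ) := by
    intro t ht
    rw [Finset.mem_Ico] at ht
    have htT : t ≤ T := ht.2.le
    have hm : n + (T - t) + t = n + T := by omega
    set m := n + (T - t) with hmdef
    have ht1 : 1 ≤ t := hS1.trans ht.1
    have htp : (1:ℝ) ≤ t := by exact_mod_cast ht1
    have henv : ∀ c : ℤ, (c = v - 1 ∨ c = v) → ∀ j ∈ Nd m, lo w m j ≤ c / 2 ^ t + 1 →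
        c / 2 ^ t ≤ lo w m j + A w m j → t ≤ A w m j :=
      fun c hc j hj h1 h2 => env t htT c hc j hj h1 h2
    -- weights of level m
    have hWm : ∀ c : ℤ, (c = v - 1 ∨ c = v) → ∀ C : ℤ, c / 2 ^ t - 1 ≤ C → C ≤ c / 2 ^ t + 1 →
        W w m C ≤ 3 * D + ε := by
      intro c hc C hC1 hC2
      have h1 := W_le w hw m C
      have h2 := dens t htT c hc (C - 1) (C + 2) (by omega) (by omega) (by omega)
      push_cast at h2
      rw [abs_le] at h2
      have e : D * ((C:ℝ) + 2 - (C - 1)) = 3 * D := by ring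
      rw [e] at h2
      linarith [h2.2]
    have hXlow : ∀ c : ℤ, (c = v - 1 ∨ c = v) →
        D - ε - 4 * θ * (3 * D + ε) ≤ W w m (c / 2 ^ t) := by
      intro c hc
      have h1 := mass_le_W w hw hT m (c / 2 ^ t) (fun j hj h1 h2 =>
        ht.1.trans (env t htT c hc j hj h1 h2))
      have h2 := dens t htT c hc (c / 2 ^ t) (c / 2 ^ t + 1) (by omega) (by omega) (by omega)
      rw [abs_le] at h2
      have e : D * (((c / 2 ^ t + 1 : ℤ) : ℝ) - ((c / 2 ^ t : ℤ) : ℝ)) = D := by push_cast; ring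
      rw [e] at h2
      have e2 : (((c / 2 ^ t + 1 : ℤ) : ℝ)) = ((c / 2 ^ t : ℤ) : ℝ) + 1 := by push_cast; ring
      rw [e2] at h2
      have h3 := hWm c hc (c / 2 ^ t) (by omega) (by omega)
      have h4 := hWm c hc (c / 2 ^ t - 1) (by omega) (by omega)
      have h5 := hWm c hc (c / 2 ^ t + 1) (by omega) (by omega)
      have h6 : θ * (W w m (c / 2 ^ t - 1) + W w m (c / 2 ^ t + 1)) ≤ θ * (2 * (3 * D + ε)) :=
        mul_le_mul_of_nonneg_left (by linarith) hθ
      have h7 : 2 * θ * W w m (c / 2 ^ t) ≤ 2 * θ * (3 * D + ε) :=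
        mul_le_mul_of_nonneg_left h3 (by linarith)
      have h8 : (1 + 2 * θ) * W w m (c / 2 ^ t) = W w m (c / 2 ^ t) + 2 * θ * W w m (c / 2 ^ t) := by
        ring
      linarith [h2.1]
    -- group sums
    have hsplit : ∀ c : ℤ, W w m (c / 2 ^ t) =
        (∑ j ∈ (CovS w m (c / 2 ^ t)).filter (fun j => A w m j ≤ K * t), 1 / (A w m j : ℝ)) +
        ∑ j ∈ (CovS w m (c / 2 ^ t)).filter (fun j => K * t < A w m j), 1 / (A w m j : ℝ) := by
      intro c
      unfold W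
      rw [← Finset.sum_filter_add_sum_filter_not (CovS w m (c / 2 ^ t)) (fun j => A w m j ≤ K * t)]
      congr 2
      ext j
      simp only [Finset.mem_filter, not_le]
    have hcard : ∀ c : ℤ, (c = v - 1 ∨ c = v) → (t:ℝ) *
        (∑ j ∈ (CovS w m (c / 2 ^ t)).filter (fun j => A w m j ≤ K * t), 1 / (A w m j : ℝ)) ≤
        (((CovS w (n + T) c).filter (fun j => A w (n + T) j ≤ (K + 1) * t)).card : ℝ) := by
      intro c hc
      have h1 := lineage_card w hw m t K c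
      rw [hm] at h1
      have h2 : (t:ℝ) *
        (∑ j ∈ (CovS w m (c / 2 ^ t)).filter (fun j => A w m j ≤ K * t), 1 / (A w m j : ℝ)) ≤
          (((CovS w m (c / 2 ^ t)).filter (fun j => A w m j ≤ K * t)).card : ℝ) := by
        rw [Finset.mul_sum, Finset.card_eq_sum_ones]
        push_cast
        apply Finset.sum_le_sum
        intro j hj
        have hj1 := (mem_CovS w).1 (Finset.mem_filter.1 hj).1
        have hA : t ≤ A w m j := by
          have hc' := hj1.2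
          unfold Cov at hc'
          exact henv c hc j hj1.1 (by omega) (by omega)
        have hA' : (t:ℝ) ≤ A w m j := by exact_mod_cast hA
        rw [mul_one_div, div_le_one (by linarith)]
        exact hA'
      exact h2.trans (by exact_mod_cast h1)
    have hKt : S0 ≤ (K - 1) * t := by
      obtain ⟨q, rfl⟩ : ∃ q, K = q + 2 := ⟨K - 2, by omega⟩
      have : (q + 2 - 1) * t = q * t + t := by
        rw [show q + 2 - 1 = q + 1 by omega]; ring
      rw [this]
      have := ht.1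
      have h0 : 0 ≤ q * t := Nat.zero_le _
      omega
    have hl1 := lineage_sum w hw m t K S0 (v - 1) hK hKt ht1
    have hl2 := lineage_sum w hw m t K S0 v hK hKt ht1
    rw [hm] at hl1 hl2
    have s1 := hsplit (v - 1)
    have s2 := hsplit v
    have x1 := hXlow (v - 1) (Or.inl rfl)
    have x2 := hXlow v (Or.inr rfl)
    have y1 := hWm (v - 1) (Or.inl rfl) ((v - 1) / 2 ^ t) (by omega) (by omega)
    have y2 := hWm v (Or.inr rfl) (v / 2 ^ t) (by omega) (by omega)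
    have c1 := hcard (v - 1) (Or.inl rfl)
    have c2 := hcard v (Or.inr rfl)
    set G1 := ∑ j ∈ (CovS w m ((v - 1) / 2 ^ t)).filter (fun j => A w m j ≤ K * t), 1 / (A w m j : ℝ)
    set G2 := ∑ j ∈ (CovS w m (v / 2 ^ t)).filter (fun j => A w m j ≤ K * t), 1 / (A w m j : ℝ)
    set B1 := ∑ j ∈ (CovS w m ((v - 1) / 2 ^ t)).filter (fun j => K * t < A w m j), 1 / (A w m j : ℝ)
    set B2 := ∑ j ∈ (CovS w m (v / 2 ^ t)).filter (fun j => K * t < A w m j), 1 / (A w m j : ℝ)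
    set F1 := ∑ j ∈ (CovS w (n + T) (v - 1)).filter (fun j => S0 ≤ A w (n + T) j),
      1 / (A w (n + T) j : ℝ)
    set F2 := ∑ j ∈ (CovS w (n + T) v).filter (fun j => S0 ≤ A w (n + T) j),
      1 / (A w (n + T) j : ℝ)
    have hG1 : 0 ≤ G1 := Finset.sum_nonneg (fun j _ => by positivity)
    have hG2 : 0 ≤ G2 := Finset.sum_nonneg (fun j _ => by positivity)
    have hB1 : 0 ≤ B1 := Finset.sum_nonneg (fun j _ => by positivity)
    have hB2 : 0 ≤ B2 := Finset.sum_nonneg (fun j _ => by positivity)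
    -- combine
    have hK1 : (1:ℝ) / K ≤ 1 / 2 := by
      apply one_div_le_one_div_of_le (by norm_num) hKp
    have hK0 : (0:ℝ) ≤ 1 / K := by positivity
    have z1 : (1 - 2 * θ) * ((1 - 1 / (K:ℝ)) * (B1 + B2)) ≤ (1 - 2 * θ) * (F1 + F2) :=
      mul_le_mul_of_nonneg_left (by rw [mul_add]; linarith) (by linarith)
    have z2 : (1 - (2 * θ + 1 / (K:ℝ))) * (B1 + B2) ≤ (1 - 2 * θ) * ((1 - 1 / (K:ℝ)) * (B1 + B2)) := by
      have e : (1 - 2 * θ) * ((1 - 1 / (K:ℝ)) * (B1 + B2)) =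
          (1 - (2 * θ + 1 / (K:ℝ))) * (B1 + B2) + 2 * θ * (1 / (K:ℝ)) * (B1 + B2) := by ring
      rw [e]
      have : 0 ≤ 2 * θ * (1 / (K:ℝ)) * (B1 + B2) := by positivity
      linarith
    have z3 : (2 * θ + 1 / (K:ℝ)) * (B1 + B2) ≤ (2 * θ + 1 / (K:ℝ)) * (2 * (3 * D + ε)) :=
      mul_le_mul_of_nonneg_left (by linarith) (by positivity)
    have z4 : 1 / 2 ≤ G1 + G2 := by
      have e1 : (1 - (2 * θ + 1 / (K:ℝ))) * (B1 + B2) = (B1 + B2) - (2 * θ + 1 / (K:ℝ)) * (B1 + B2) := by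
        ring
      have e2 : (12 * θ + 2 / (K:ℝ)) * (3 * D + ε) =
          8 * θ * (3 * D + ε) + (2 * θ + 1 / (K:ℝ)) * (2 * (3 * D + ε)) := by ring
      rw [e2] at par
      linarith
    have z5 : (t:ℝ) / 2 ≤ t * (G1 + G2) := by nlinarith
    rw [mul_add] at z5
    linarith
  -- summation
  have q1 := harm_sum (CovS w (n + T) (v - 1)) (fun j => A w (n + T) j)
    (fun j hj => cov_pos w ((mem_CovS w).1 hj).2) K S0 T hS1 hST
  have q2 := harm_sum (CovS w (n + T) v) (fun j => A w (n + T) j)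
    (fun j hj => cov_pos w ((mem_CovS w).1 hj).2) K S0 T hS1 hST
  have q3 := hWM (v - 1) (Or.inl rfl)
  have q4 := hWM v (Or.inr rfl)
  unfold W at q3 q4
  have q5 : ∑ t ∈ Finset.Ico S0 T, 1 / ((t:ℝ) + 1) * (1 / (2 * (K + 1))) ≤
      ∑ t ∈ Finset.Ico S0 T, (((CovS w (n + T) (v - 1)).filter
        (fun j => A w (n + T) j ≤ (K + 1) * t)).card : ℝ) / ((K + 1) * ((t:ℝ) * (t + 1))) +
      ∑ t ∈ Finset.Ico S0 T, (((CovS w (n + T) v).filter
        (fun j => A w (n + T) j ≤ (K + 1) * t)).card : ℝ) / ((K + 1) * ((t:ℝ) * (t + 1))) := by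
    rw [← Finset.sum_add_distrib]
    apply Finset.sum_le_sum
    intro t ht
    have h1 := key t ht
    rw [Finset.mem_Ico] at ht
    have htp : (0:ℝ) < t := by exact_mod_cast (lt_of_lt_of_le hS1 ht.1)
    rw [← add_div, le_div_iff₀ (by positivity)]
    calc _ = (t:ℝ) / 2 := by field_simp
      _ ≤ _ := h1
  rw [← Finset.sum_mul] at q5
  have hK2 : (0:ℝ) < 2 * (K + 1) := by positivity
  have q6 : (∑ t ∈ Finset.Ico S0 T, 1 / ((t:ℝ) + 1)) * (1 / (2 * (K + 1))) ≤ 2 * (3 * D + ε) := by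
    linarith
  rw [mul_one_div, div_le_iff₀ hK2] at q6
  nlinarith

end TKL
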