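import Pool.Agent.TKL.F
import Pool.Agent.TKL.K

/-! # Assembly -/

open MeasureTheory Set Filter Topology R109.GT
open scoped Classical

namespace TKL

variable (w : ℕ → ℤ → ℤ)

theorem near_zero (hw : Sgn w) (n : ℕ) (x : ℝ) (hx : x ∈ Ico (0:ℝ) 1) (h : S w n x = 0) :
    ⌊(2:ℝ) ^ n * x⌋ ∈ Nd n ∧ Near w n ⌊(2:ℝ) ^ n * x⌋ (tak w x) 1 ∧ A w n ⌊(2:ℝ) ^ n * x⌋ = 0 := by
  have hp : (0:ℝ) < 2 ^ n := by positivity
  have h' : R109.GT.slope w n ⌊(2:ℝ) ^ n * x⌋ = 0 := h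
  have e := tak_eq w hw n x
  rw [h, Int.cast_zero, zero_mul, add_zero] at e
  have hb := abs_le.1 (bound _ (fun m k => hw (n + m) k) ((2:ℝ) ^ n * x) : |tak (fun m => w (n + m)) _| ≤ 1)
  have hlo : lo w n ⌊(2:ℝ) ^ n * x⌋ = val w n ⌊(2:ℝ) ^ n * x⌋ := by unfold lo; rw [h']; simp
  have hA : A w n ⌊(2:ℝ) ^ n * x⌋ = 0 := by unfold A; rw [h']; rfl
  have e2 : 2 ^ n * tak w x = val w n ⌊(2:ℝ) ^ n * x⌋ + tak (fun m => w (n + m)) ((2:ℝ) ^ n * x) := by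
    rw [e]; field_simp
  refine ⟨?_, ⟨?_, ?_⟩, hA⟩
  · rw [mem_Nd]
    constructor
    · apply Int.floor_nonneg.2
      exact mul_nonneg hp.le hx.1
    · rw [Int.floor_lt]
      push_cast
      nlinarith [hx.2]
  · rw [hlo, e2]; linarith [hb.1]
  · rw [hlo, hA, e2]; push_cast; linarith [hb.2]

theorem find_level (hw : Sgn w) (y x : ℝ) (hx : x ∈ Ico (0:ℝ) 1) (hxy : tak w x = y)
    (hZ : x ∈ Z w)
    (hgood : ∀ T ρ n0 : ℕ, ∃ n, n0 ≤ n ∧ ∀ j ∈ Nd n, Near w n j y ρ → T + 1 ≤ A w n j)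
    (T ρ n0 : ℕ) (hρ : 2 ≤ ρ) :
    ∃ n, n0 ≤ n ∧ ∃ j0 ∈ Nd n, Near w n j0 y ρ ∧ A w n j0 = T ∧
      ∀ j ∈ Nd n, Near w n j y (2 * ρ - 2) → T ≤ A w n j := by
  obtain ⟨n1, hn1, hg⟩ := hgood T ρ n0
  have hZ' : ∃ᶠ n in atTop, S w n x = 0 := hZ
  obtain ⟨n', hn', hS⟩ := (frequently_atTop.1 hZ') (n1 + 1)
  have hρ1 : (2:ℝ) ≤ ρ := by exact_mod_cast hρ
  have hex : ∃ n, n1 < n ∧ ∃ j ∈ Nd n, Near w n j y ρ ∧ A w n j ≤ T := by
    obtain ⟨h1, h2, h3⟩ := near_zero w hw n' x hx hS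
    refine ⟨n', by omega, _, h1, ?_, by omega⟩
    rw [hxy] at h2
    exact ⟨by linarith [h2.1], by linarith [h2.2]⟩
  set n := Nat.find hex with hn
  obtain ⟨hn2, j0, hj0, hN0, hA0⟩ := Nat.find_spec hex
  rw [← hn] at hn2 hj0 hN0 hA0
  obtain ⟨l, hl⟩ : ∃ l, n = l + 1 := ⟨n - 1, by omega⟩
  have hprev : ∀ j ∈ Nd l, Near w l j y ρ → T + 1 ≤ A w l j := by
    intro j hj hN
    rcases Nat.lt_or_ge n1 l with h | h
    · by_contra hc
      have := Nat.find_min' hex ⟨h, j, hj, hN, by omega⟩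
      omega
    · have : l = n1 := by omega
      subst this
      exact hg j hj hN
  have hall : ∀ j ∈ Nd n, Near w n j y (2 * ρ - 2) → T ≤ A w n j := by
    rw [hl]
    intro j hj hN
    have hpN : j / 2 ∈ Nd l := by
      have := (div_mem_Nd (n := l) (k := 1) (j := j)).1 hj
      simpa using this
    have hlc := loc_child w hw l j
    have h1 : (2:ℝ) * lo w l (j/2) - 1 ≤ lo w (l+1) j := by exact_mod_cast hlc.1
    have h2 : (lo w (l+1) j : ℝ) + A w (l+1) j ≤ 2 * (lo w l (j/2) + A w l (j/2)) + 1 := by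
      exact_mod_cast hlc.2
    have hNp : Near w l (j/2) y ρ := by
      obtain ⟨a, b⟩ := hN
      rw [pow_succ] at a b
      constructor
      · linarith
      · linarith
    have h3 := hprev _ hpN hNp
    have h4 := (A_child w hw l j).2
    omega
  refine ⟨n, by omega, j0, hj0, hN0, ?_, hall⟩
  have := hall j0 hj0 ⟨by linarith [hN0.1], by linarith [hN0.2]⟩
  omega

theorem point (hw : Sgn w) (y : ℝ)
    (hgood : ∀ T ρ n0 : ℕ, ∃ n, n0 ≤ n ∧ ∀ j ∈ Nd n, Near w n j y ρ → T + 1 ≤ A w n j)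
    (hdiff : DifferentiableAt ℝ (cdf w) y) : y ∉ tak w '' (Z w ∩ Ico 0 1) := by
  rintro ⟨x, ⟨hZ, hx⟩, hxy⟩
  set D := deriv (cdf w) y with hD
  have hder : HasDerivAt (cdf w) D y := hdiff.hasDerivAt
  have hD0 : 0 ≤ D := (cdf_mono w).deriv_nonneg
  -- parameters
  obtain ⟨ε, hε⟩ : ∃ ε : ℝ, ε = 1 / 24 := ⟨_, rfl⟩
  obtain ⟨θ, hθ⟩ : ∃ θ : ℝ, θ = 1 / (64 * (3 * D + 1)) := ⟨_, rfl⟩
  have hθ0 : 0 < θ := by rw [hθ]; positivity
  have hθ4 : θ ≤ 1 / 4 := by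
    rw [hθ]
    apply one_div_le_one_div_of_le (by norm_num)
    nlinarith
  have hθD : θ * (3 * D + 1) = 1 / 64 := by rw [hθ]; field_simp
  obtain ⟨S0, hS1, hS0⟩ := exists_mod θ hθ0
  have hT : Thr θ S0 := ⟨hθ0.le, hθ4, hS1, hS0⟩
  obtain ⟨K, hK⟩ := exists_nat_gt (11 * (3 * D + 1))
  have hK2 : 2 ≤ K := by
    have : (2:ℝ) ≤ K := by nlinarith
    exact_mod_cast this
  have hKp : (0:ℝ) < K := by
    have : 0 < K := by omega
    exact_mod_cast this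
  have hKD : (3 * D + 1) / K ≤ 1 / 11 := by
    rw [div_le_iff₀ hKp]; linarith
  have par : 3 * ε + (12 * θ + 2 / (K:ℝ)) * (3 * D + ε) ≤ 1 / 2 := by
    have h1 : (12 * θ + 2 / (K:ℝ)) * (3 * D + ε) ≤ (12 * θ + 2 / (K:ℝ)) * (3 * D + 1) :=
      mul_le_mul_of_nonneg_left (by rw [hε]; linarith) (by positivity)
    have h2 : (12 * θ + 2 / (K:ℝ)) * (3 * D + 1) = 12 * (θ * (3 * D + 1)) + 2 * ((3 * D + 1) / K) := by
      ring
    rw [h2, hθD] at h1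
    rw [hε] at h1 ⊢
    linarith
  obtain ⟨T, hST, harm⟩ : ∃ T : ℕ, S0 ≤ T ∧
      4 * (K + 1) * (3 * D + ε) < ∑ t ∈ Finset.Ico S0 T, 1 / ((t:ℝ) + 1) := by
    have h1 := Real.tendsto_sum_range_one_div_nat_succ_atTop
    obtain ⟨T, hTT, hT2⟩ := ((tendsto_atTop.1 h1 (4 * (K + 1) * (3 * D + ε) +
      ∑ i ∈ Finset.range S0, 1 / ((i:ℝ) + 1) + 1)).and (eventually_ge_atTop S0)).exists
    refine ⟨T, hT2, ?_⟩
    rw [Finset.sum_Ico_eq_sub _ hT2]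
    linarith
  obtain ⟨ρ, hρ⟩ : ∃ ρ : ℕ, ρ = T + 6 := ⟨_, rfl⟩
  obtain ⟨R, hR⟩ : ∃ R : ℝ, R = 2 * T + 11 := ⟨_, rfl⟩
  have hR0 : 0 < R := by rw [hR]; positivity
  obtain ⟨δ, hδ⟩ : ∃ δ : ℝ, δ = ε / (2 * R * 2 ^ T) := ⟨_, rfl⟩
  have hε0 : 0 < ε := by rw [hε]; norm_num
  have hδ0 : 0 < δ := by rw [hδ]; positivity
  have hlit := (hasDerivAt_iff_isLittleO.1 hder).def hδ0
  obtain ⟨r, hr, hball⟩ := Metric.eventually_nhds_iff.1 hlit
  obtain ⟨n0, hn0⟩ := exists_pow_lt_of_lt_one (show (0:ℝ) < r / R by positivity)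
    (by norm_num : (1/2:ℝ) < 1)
  obtain ⟨n, hn, j0, hj0, hN0, hA0, hall⟩ := find_level w hw y x hx hxy hZ hgood T ρ n0 (by omega)
  have hpn : (0:ℝ) < 2 ^ n := by positivity
  have hRn : R / 2 ^ n < r := by
    have h1 : (1/2:ℝ) ^ n ≤ (1/2:ℝ) ^ n0 := pow_le_pow_of_le_one (by norm_num) (by norm_num) hn
    have h2 : (1/2:ℝ) ^ n < r / R := lt_of_le_of_lt h1 hn0
    rw [one_div_pow, lt_div_iff₀ hR0] at h2
    calc R / 2 ^ n = 1 / 2 ^ n * R := by ring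
      _ < r := h2
  have hcd : ∀ z : ℝ, |z - y| ≤ R / 2 ^ n → |cdf w z - cdf w y - (z - y) * D| ≤ δ * (R / 2 ^ n) := by
    intro z hz
    have h1 := hball (show dist z y < r by rw [Real.dist_eq]; linarith)
    rw [Real.norm_eq_abs, Real.norm_eq_abs, smul_eq_mul] at h1
    exact h1.trans (mul_le_mul_of_nonneg_left hz hδ0.le)
  obtain ⟨js, hjs1, hjs0⟩ := down_desc w hw T n j0 hA0
  have hjs : js ∈ Nd (n + T) := by rw [div_mem_Nd, hjs1]; exact hj0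
  obtain ⟨v, hv⟩ : ∃ v : ℤ, v = val w (n + T) js := ⟨_, rfl⟩
  have hlov : lo w (n + T) js = v := by unfold lo; rw [hjs0, hv]; simp
  have hAv : A w (n + T) js = 0 := by unfold A; rw [hjs0]; rfl
  have hloc := loc_desc w hw n T js
  rw [hjs1, hlov, hAv, hA0] at hloc
  have h2T : (0:ℝ) < 2 ^ T := by positivity
  have v1 : (lo w n j0 : ℝ) - 1 ≤ v / 2 ^ T := by
    rw [le_div_iff₀ h2T]
    have : (2:ℝ) ^ T * (lo w n j0 - 1) + 1 ≤ v := by exact_mod_cast hloc.1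
    linarith
  have v2 : (v:ℝ) / 2 ^ T ≤ lo w n j0 + T + 1 := by
    rw [div_le_iff₀ h2T]
    have : (v:ℝ) + 0 ≤ 2 ^ T * (lo w n j0 + T + 1) - 1 := by exact_mod_cast hloc.2
    linarith
  have hN0' := hN0
  obtain ⟨y1, y2⟩ := hN0'
  rw [hA0] at y2
  have hρR : (ρ:ℝ) = T + 6 := by rw [hρ]; push_cast; ring
  -- cells
  have cellfact : ∀ t : ℕ, ∀ c : ℤ, (c = v - 1 ∨ c = v) →
      (2:ℤ) ^ t * (c / 2 ^ t) ≤ v ∧ v ≤ 2 ^ t * (c / 2 ^ t + 1) := by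
    intro t c hc
    have hp : (0:ℤ) < 2 ^ t := by positivity
    have e1 := Int.mul_ediv_self_le (x := c) (k := 2 ^ t) hp.ne'
    have e2 := Int.lt_mul_ediv_self_add (x := c) (k := 2 ^ t) hp
    rw [mul_add, mul_one]
    constructor
    · rcases hc with h | h <;> omega
    · rcases hc with h | h <;> omega
  refine core w hw D ε θ K S0 T n js hT hD0 hε0.le hK2 hST hjs hjs0 ?_ ?_ par harm
  · -- environment
    rw [← hv]
    intro t ht c hc j hj h1 h2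
    obtain ⟨k, hk⟩ : ∃ k, k = T - t := ⟨_, rfl⟩
    rw [← hk] at hj h1 h2 ⊢
    have hkt : k + t = T := by omega
    obtain ⟨c1, c2⟩ := cellfact t c hc
    have hl := loc_desc w hw n k j
    have hjn : j / 2 ^ k ∈ Nd n := div_mem_Nd.1 hj
    have hpt : (0:ℤ) < 2 ^ t := by positivity
    have hpow : (2:ℤ) ^ t * 2 ^ k = 2 ^ T := by rw [← pow_add, add_comm, hkt]
    have b1 : 2 ^ T * (lo w n (j / 2 ^ k) - 1) ≤ v := by
      calc 2 ^ T * (lo w n (j / 2 ^ k) - 1) = 2 ^ t * (2 ^ k * (lo w n (j / 2 ^ k) - 1)) := by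
            rw [← hpow]; ring
        _ ≤ 2 ^ t * (c / 2 ^ t) := by
            apply mul_le_mul_of_nonneg_left _ hpt.le
            linarith [hl.1]
        _ ≤ v := c1
    have b2 : v ≤ 2 ^ T * (lo w n (j / 2 ^ k) + A w n (j / 2 ^ k) + 1) := by
      calc v ≤ 2 ^ t * (c / 2 ^ t + 1) := c2
        _ ≤ 2 ^ t * (2 ^ k * (lo w n (j / 2 ^ k) + A w n (j / 2 ^ k) + 1)) := by
            apply mul_le_mul_of_nonneg_left _ hpt.le
            linarith [hl.2]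
        _ = _ := by rw [← hpow]; ring
    have b1' : (lo w n (j / 2 ^ k) : ℝ) - 1 ≤ v / 2 ^ T := by
      rw [le_div_iff₀ h2T]
      have : (2:ℝ) ^ T * (lo w n (j / 2 ^ k) - 1) ≤ v := by exact_mod_cast b1
      linarith
    have b2' : (v:ℝ) / 2 ^ T ≤ lo w n (j / 2 ^ k) + A w n (j / 2 ^ k) + 1 := by
      rw [div_le_iff₀ h2T]
      have : (v:ℝ) ≤ 2 ^ T * (lo w n (j / 2 ^ k) + A w n (j / 2 ^ k) + 1) := by exact_mod_cast b2
      linarith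
    have hNn : Near w n (j / 2 ^ k) y (2 * ρ - 2) := by
      constructor <;> linarith
    have h3 := hall _ hjn hNn
    have h4 := (A_desc w hw n k j).2
    omega
  · -- density
    rw [← hv]
    intro t ht c hc a b ha hab hb
    obtain ⟨k, hk⟩ : ∃ k, k = T - t := ⟨_, rfl⟩
    rw [← hk]
    have hkt : k + t = T := by omega
    obtain ⟨c1, c2⟩ := cellfact t c hc
    have hpm : (0:ℝ) < 2 ^ (n + k) := by positivity
    rw [← part_occ w hw, ← cdf_sub w hw _ _ (div_le_div_of_nonneg_right (by exact_mod_cast hab) hpm.le)]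
    have hpt : (0:ℝ) < 2 ^ t := by positivity
    have hpk : (1:ℝ) ≤ 2 ^ k := one_le_pow₀ (by norm_num)
    have hpowR : (2:ℝ) ^ t * 2 ^ k = 2 ^ T := by rw [← pow_add, add_comm, hkt]
    have d1 : ((c / 2 ^ t : ℤ) : ℝ) ≤ v / 2 ^ t := by
      rw [le_div_iff₀ hpt]
      have : (2:ℝ) ^ t * ((c / 2 ^ t : ℤ) : ℝ) ≤ v := by exact_mod_cast c1
      linarith
    have d2 : (v:ℝ) / 2 ^ t ≤ ((c / 2 ^ t : ℤ) : ℝ) + 1 := by
      rw [div_le_iff₀ hpt]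
      have : (v:ℝ) ≤ (2:ℝ) ^ t * (((c / 2 ^ t : ℤ) : ℝ) + 1) := by exact_mod_cast c2
      linarith
    have hdist : ∀ a : ℤ, c / 2 ^ t - 2 ≤ a → a ≤ c / 2 ^ t + 3 →
        |(a:ℝ) / 2 ^ (n + k) - y| ≤ R / 2 ^ n := by
      intro a ha1 ha2
      have ha1' : ((c / 2 ^ t : ℤ) : ℝ) - 2 ≤ a := by exact_mod_cast ha1
      have ha2' : (a:ℝ) ≤ ((c / 2 ^ t : ℤ) : ℝ) + 3 := by exact_mod_cast ha2
      have f1 : |(a:ℝ) - v / 2 ^ t| ≤ 3 := by rw [abs_le]; constructor <;> linarith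
      have f2 : |(a:ℝ) / 2 ^ k - v / 2 ^ T| ≤ 3 := by
        have : (a:ℝ) / 2 ^ k - v / 2 ^ T = ((a:ℝ) - v / 2 ^ t) / 2 ^ k := by
          rw [← hpowR]; field_simp
        rw [this, abs_div, abs_of_pos (by positivity : (0:ℝ) < 2 ^ k), div_le_iff₀ (by positivity)]
        nlinarith
      have f3 : |(v:ℝ) / 2 ^ T - 2 ^ n * y| ≤ T + ρ + 1 := by
        rw [abs_le]; constructor <;> linarith
      have f4 : (a:ℝ) / 2 ^ (n + k) - y = ((a:ℝ) / 2 ^ k - 2 ^ n * y) / 2 ^ n := by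
        rw [pow_add]; field_simp
      rw [f4, abs_div, abs_of_pos hpn]
      apply div_le_div_of_nonneg_right _ hpn.le
      have f5 : |(a:ℝ) / 2 ^ k - 2 ^ n * y| ≤ |(a:ℝ) / 2 ^ k - v / 2 ^ T| + |(v:ℝ) / 2 ^ T - 2 ^ n * y| := by
        have := abs_add_le ((a:ℝ) / 2 ^ k - v / 2 ^ T) ((v:ℝ) / 2 ^ T - 2 ^ n * y)
        rwa [sub_add_sub_cancel] at this
      rw [hR]
      linarith
    have ga := abs_le.1 (hcd _ (hdist a ha (by omega)))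
    have gb := abs_le.1 (hcd _ (hdist b (by omega) hb))
    have hfinal : (2:ℝ) ^ (n + k) * (2 * (δ * (R / 2 ^ n))) ≤ ε := by
      have e1 : (2:ℝ) ^ (n + k) * (2 * (δ * (R / 2 ^ n))) = 2 ^ k * (2 * R * δ) := by
        rw [pow_add]; field_simp
      rw [e1, hδ]
      have e2 : (2:ℝ) ^ k ≤ 2 ^ T := pow_le_pow_right₀ (by norm_num) (by omega)
      have e3 : (2:ℝ) ^ k * (2 * R * (ε / (2 * R * 2 ^ T))) = ε * (2 ^ k / 2 ^ T) := by field_simp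
      rw [e3]
      have e4 : (2:ℝ) ^ k / 2 ^ T ≤ 1 := by rw [div_le_one h2T]; exact e2
      nlinarith
    have hsum : |cdf w ((b:ℝ) / 2 ^ (n + k)) - cdf w ((a:ℝ) / 2 ^ (n + k)) -
        D * ((b:ℝ) / 2 ^ (n + k) - (a:ℝ) / 2 ^ (n + k))| ≤ 2 * (δ * (R / 2 ^ n)) := by
      rw [abs_le]
      constructor <;> nlinarith [ga.1, ga.2, gb.1, gb.2]
    have e5 : (2:ℝ) ^ (n + k) * (cdf w ((b:ℝ) / 2 ^ (n + k)) - cdf w ((a:ℝ) / 2 ^ (n + k))) -
        D * ((b:ℝ) - a) = 2 ^ (n + k) * (cdf w ((b:ℝ) / 2 ^ (n + k)) - cdf w ((a:ℝ) / 2 ^ (n + k)) -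
        D * ((b:ℝ) / 2 ^ (n + k) - (a:ℝ) / 2 ^ (n + k))) := by
      field_simp
    rw [e5, abs_mul, abs_of_pos hpm]
    exact (mul_le_mul_of_nonneg_left hsum hpm.le).trans hfinal

theorem null (hw : Sgn w) : volume (tak w '' (Z w ∩ Ico 0 1)) = 0 := by
  rw [measure_eq_zero_iff_ae_notMem]
  filter_upwards [good_levels w hw, (cdf_mono w).ae_differentiableAt] with y h1 h2
  exact point w hw y h1 h2

/-- For every generalized Takagi function almost every level set is finite. -/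
theorem ae_finite_all (hw : Sgn w) :
    ∀ᵐ y ∂(volume : Measure ℝ), {x | x ∈ Icc (0:ℝ) 1 ∧ tak w x = y}.Finite :=
  ae_finite w hw (null w hw)

end TKL
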